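import Pool.Agent.H96.AS.Df
import Pool.Agent.H12.DM.Ba

/-!
# APP: the primes in the classes modulo `WW (yy x)`, in the range `JC x H t`
-/

set_option autoImplicit false

namespace Pool.Agent.H6.AS

open Finset Pool.Agent.H17 Pool.Agent.H6.MF Pool.Agent.H6.MB Pool.Agent.H12.DM Pool.Agent.H96.AS

lemma APP_pow {ε x : ℝ} (hε : 0 < ε) (hx1 : 1 ≤ x) (hx : (258 / ε) ^ 2 ≤ x) :
    Real.log x * Real.log x * (x ^ (1 / 4 : ℝ) + 1) + 1 ≤ ε / 2 * x := by
  have hx0 : 0 ≤ x := by linarith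
  have h1 : Real.log x ≤ x ^ (1 / 8 : ℝ) / (1 / 8 : ℝ) := Real.log_le_rpow_div hx0 (by norm_num)
  have hlog : 0 ≤ Real.log x := Real.log_nonneg hx1
  have e1 : x ^ (1 / 8 : ℝ) * x ^ (1 / 8 : ℝ) = x ^ (1 / 4 : ℝ) := by
    rw [← Real.rpow_add (by linarith)]; norm_num
  have e2 : x ^ (1 / 4 : ℝ) * x ^ (1 / 4 : ℝ) = Real.sqrt x := by
    rw [← Real.rpow_add (by linarith), Real.sqrt_eq_rpow]; norm_num
  have g1 : 1 ≤ x ^ (1 / 4 : ℝ) := Real.one_le_rpow hx1 (by norm_num)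
  have g2 : 1 ≤ Real.sqrt x := by
    rw [← e2]; nlinarith
  have h2 : Real.log x * Real.log x ≤ 64 * x ^ (1 / 4 : ℝ) := by
    have : Real.log x * Real.log x ≤
        (x ^ (1 / 8 : ℝ) / (1 / 8 : ℝ)) * (x ^ (1 / 8 : ℝ) / (1 / 8 : ℝ)) :=
      mul_le_mul h1 h1 hlog (hlog.trans h1)
    refine this.trans (le_of_eq ?_)
    rw [← e1]; ring
  have h3 : Real.log x * Real.log x * (x ^ (1 / 4 : ℝ) + 1) ≤
      64 * x ^ (1 / 4 : ℝ) * (2 * x ^ (1 / 4 : ℝ)) :=
    mul_le_mul h2 (by linarith) (by linarith) (by linarith)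
  have h4 : Real.log x * Real.log x * (x ^ (1 / 4 : ℝ) + 1) ≤ 128 * Real.sqrt x := by
    refine h3.trans (le_of_eq ?_)
    rw [← e2]; ring
  have h5 : 258 / ε ≤ Real.sqrt x := by
    rw [Real.le_sqrt (by positivity) hx0]
    exact hx
  have h6 : 258 ≤ ε * Real.sqrt x := by
    rw [div_le_iff₀ hε] at h5
    linarith
  have h7 : Real.sqrt x * Real.sqrt x = x := Real.mul_self_sqrt hx0
  have h8 : 258 * Real.sqrt x ≤ ε * x := by
    calc 258 * Real.sqrt x ≤ (ε * Real.sqrt x) * Real.sqrt x :=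
          mul_le_mul_of_nonneg_right h6 (by linarith)
      _ = ε * x := by rw [mul_assoc, h7]
  linarith

lemma APP_isP (n : ℕ) : isP (n : ℤ) ↔ n.Prime := by
  unfold isP
  rw [Int.toNat_natCast]

lemma APP_class {ε x : ℝ} (hε : 0 < ε) (hx3 : 3 ≤ x) (hL1 : 1 ≤ Real.log x)
    (hpow : Real.log x * Real.log x * (x ^ (1 / 4 : ℝ) + 1) + 1 ≤ ε / 2 * x)
    {W : ℕ} (hW : 0 < W) (hφL : (W.totient : ℝ) ≤ Real.log x) {a : ℕ} (haW : a < W)
    (hup : ((piAP (a : ZMod W) x : ℕ) : ℝ) ≤ (1 + ε / 4) * x / (W.totient * Real.log x))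
    (hlo : (1 - ε / 4) * x / (W.totient * Real.log x) ≤ ((piAP (a : ZMod W) x : ℕ) : ℝ)) :
    |∑ n ∈ (Finset.range (⌊x⌋₊ + 1)).filter (fun n => n % W = a), La x (n : ℤ)
        - ((⌊x⌋₊ : ℝ) + 1) / (W.totient : ℝ)| ≤
      ε * (((⌊x⌋₊ : ℝ) + 1) / (W.totient : ℝ)) := by
  have hx0 : 0 ≤ x := by linarith
  have hφ0 : (0 : ℝ) < (W.totient : ℝ) := by exact_mod_cast Nat.totient_pos.mpr hW
  have hL0 : 0 < Real.log x := by linarith
  set F : Finset ℕ := (Finset.range (⌊x⌋₊ + 1)).filter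
    (fun n => n % W = a ∧ n.Prime ∧ x ^ (1 / 4 : ℝ) < (n : ℝ)) with hF
  have hS : ∑ n ∈ (Finset.range (⌊x⌋₊ + 1)).filter (fun n => n % W = a), La x (n : ℤ) =
      (F.card : ℝ) * Real.log x := by
    have e1 : ∀ n ∈ (Finset.range (⌊x⌋₊ + 1)).filter (fun n => n % W = a), La x (n : ℤ) =
        if n.Prime ∧ x ^ (1 / 4 : ℝ) < (n : ℝ) then Real.log x else 0 := by
      intro n hn
      rw [Finset.mem_filter, Finset.mem_range] at hn
      have hnx : (n : ℝ) ≤ x := by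
        have h1 : n ≤ ⌊x⌋₊ := by omega
        exact (Nat.cast_le.mpr h1).trans (Nat.floor_le hx0)
      unfold La
      have hc : (((n : ℤ) : ℤ) : ℝ) = (n : ℝ) := by push_cast; rfl
      by_cases h : n.Prime ∧ x ^ (1 / 4 : ℝ) < (n : ℝ)
      · rw [if_pos h, if_pos ⟨(APP_isP n).2 h.1, by rw [hc]; exact h.2, by rw [hc]; exact hnx⟩]
      · rw [if_neg h, if_neg]
        rintro ⟨h1, h2, _⟩
        rw [hc] at h2
        exact h ⟨(APP_isP n).1 h1, h2⟩
    rw [Finset.sum_congr rfl e1, ← Finset.sum_filter, Finset.filter_filter, Finset.sum_const,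
      nsmul_eq_mul]
  have hmod : ∀ p : ℕ, ((p : ZMod W) = (a : ZMod W)) ↔ p % W = a := by
    intro p
    rw [ZMod.natCast_eq_natCast_iff', Nat.mod_eq_of_lt haW]
  have hle : F.card ≤ piAP (a : ZMod W) x := by
    unfold piAP
    apply Finset.card_le_card
    intro n hn
    rw [hF, Finset.mem_filter, Finset.mem_range] at hn
    rw [Finset.mem_filter, Finset.mem_Icc]
    exact ⟨⟨hn.2.2.1.one_lt.le, by omega⟩, hn.2.2.1, (hmod n).2 hn.2.1⟩
  have hge : piAP (a : ZMod W) x ≤ F.card + (⌊x ^ (1 / 4 : ℝ)⌋₊ + 1) := by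
    have h1 : piAP (a : ZMod W) x ≤ (F ∪ Finset.range (⌊x ^ (1 / 4 : ℝ)⌋₊ + 1)).card := by
      unfold piAP
      apply Finset.card_le_card
      intro n hn
      rw [Finset.mem_filter, Finset.mem_Icc] at hn
      rw [Finset.mem_union, Finset.mem_range, hF, Finset.mem_filter, Finset.mem_range]
      by_cases h : x ^ (1 / 4 : ℝ) < (n : ℝ)
      · left
        exact ⟨by omega, (hmod n).1 hn.2.2, hn.2.1, h⟩
      · right
        push Not at h
        have := Nat.le_floor h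
        omega
    refine h1.trans ((Finset.card_union_le _ _).trans ?_)
    rw [Finset.card_range]
  have hge' : ((piAP (a : ZMod W) x : ℕ) : ℝ) ≤ (F.card : ℝ) + (x ^ (1 / 4 : ℝ) + 1) := by
    have h1 : ((piAP (a : ZMod W) x : ℕ) : ℝ) ≤
        ((F.card + (⌊x ^ (1 / 4 : ℝ)⌋₊ + 1) : ℕ) : ℝ) := by exact_mod_cast hge
    push_cast at h1
    have h2 : (⌊x ^ (1 / 4 : ℝ)⌋₊ : ℝ) ≤ x ^ (1 / 4 : ℝ) :=
      Nat.floor_le (Real.rpow_nonneg hx0 _)
    linarith
  have hle' : (F.card : ℝ) ≤ ((piAP (a : ZMod W) x : ℕ) : ℝ) := by exact_mod_cast hle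
  have hN1 : (⌊x⌋₊ : ℝ) + 1 ≤ x + 1 := by
    have := Nat.floor_le hx0
    linarith
  have hN2 : x ≤ (⌊x⌋₊ : ℝ) + 1 := (Nat.lt_floor_add_one x).le
  rw [hS]
  set φ : ℝ := (W.totient : ℝ) with hφ
  set L : ℝ := Real.log x with hL
  set N : ℝ := (⌊x⌋₊ : ℝ) + 1 with hN
  set P : ℝ := ((piAP (a : ZMod W) x : ℕ) : ℝ) with hP
  set q : ℝ := x ^ (1 / 4 : ℝ) with hq
  have hq0 : 0 ≤ q := Real.rpow_nonneg hx0 _
  rw [le_div_iff₀ (by positivity)] at hup
  rw [div_le_iff₀ (by positivity)] at hlo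
  -- multiply by φ
  have hmul : φ * (F.card * L) ≤ (1 + ε / 4) * x := by
    calc φ * (F.card * L) = F.card * (φ * L) := by ring
      _ ≤ P * (φ * L) := mul_le_mul_of_nonneg_right hle' (by positivity)
      _ ≤ _ := hup
  have hmul2 : (1 - ε / 4) * x - L * L * (q + 1) ≤ φ * (F.card * L) := by
    have h1 : P * (φ * L) ≤ (F.card + (q + 1)) * (φ * L) :=
      mul_le_mul_of_nonneg_right hge' (by positivity)
    have h2 : (q + 1) * (φ * L) ≤ (q + 1) * (L * L) :=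
      mul_le_mul_of_nonneg_left (mul_le_mul_of_nonneg_right hφL hL0.le) (by linarith)
    nlinarith
  have hNφ : N / φ * φ = N := div_mul_cancel₀ N hφ0.ne'
  rw [abs_le]
  constructor
  · apply le_of_mul_le_mul_right _ hφ0
    have e1 : -(ε * (N / φ)) * φ = -(ε * N) := by
      rw [neg_mul, mul_assoc, hNφ]
    have e2 : (↑F.card * L - N / φ) * φ = φ * (F.card * L) - N := by
      rw [sub_mul, hNφ]; ring
    rw [e1, e2]
    have h3 : ε * x ≤ ε * N := mul_le_mul_of_nonneg_left hN2 hε.le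
    linarith
  · apply le_of_mul_le_mul_right _ hφ0
    have e1 : (ε * (N / φ)) * φ = ε * N := by
      rw [mul_assoc, hNφ]
    have e2 : (↑F.card * L - N / φ) * φ = φ * (F.card * L) - N := by
      rw [sub_mul, hNφ]; ring
    rw [e1, e2]
    have h3 : ε * x ≤ ε * N := mul_le_mul_of_nonneg_left hN2 hε.le
    have h4 : 0 ≤ ε * x := by positivity
    linarith


/-- primes in classes -/
theorem APP0 (ε : ℝ) (hε : 0 < ε) : ∃ X : ℝ, ∀ x : ℝ, X ≤ x → ∀ c : ℕ, c < WW (yy x) →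
    |∑ n ∈ (Finset.range (⌊x⌋₊ + 1)).filter (fun n => n % WW (yy x) = c), La x (n : ℤ)
        - ((⌊x⌋₊ : ℝ) + 1) / (WW (yy x) : ℝ) * Mm (yy x) (c : ℤ)| ≤
      ε * (((⌊x⌋₊ : ℝ) + 1) / (WW (yy x) : ℝ) * Mm (yy x) (c : ℤ)) := by
  obtain ⟨X1, hX1⟩ := piAP_upper (ε := ε / 4) (by positivity)
  obtain ⟨X2, hX2⟩ := piAP_lower (ε := ε / 4) (by positivity)
  refine ⟨max (max X1 X2) (max 3 ((258 / ε) ^ 2)), fun x hx c hcW => ?_⟩
  have hx1 : X1 ≤ x := (le_max_left _ _).trans ((le_max_left _ _).trans hx)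
  have hx2 : X2 ≤ x := (le_max_right _ _).trans ((le_max_left _ _).trans hx)
  have hx3 : 3 ≤ x := (le_max_left _ _).trans ((le_max_right _ _).trans hx)
  have hx4 : (258 / ε) ^ 2 ≤ x := (le_max_right _ _).trans ((le_max_right _ _).trans hx)
  have hx0 : 0 ≤ x := by linarith
  have hL1 : 1 ≤ Real.log x := by
    rw [Real.le_log_iff_exp_le (by linarith)]
    have := Real.exp_one_lt_d9
    linarith
  have hpow := APP_pow hε (by linarith : (1 : ℝ) ≤ x) hx4
  set w : ℕ := yy x with hw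
  set W : ℕ := WW w with hWdef
  have hWpos : 0 < W := WW_pos w
  have hWne : NeZero W := ⟨hWpos.ne'⟩
  have hW1 : (1 : ℝ) ≤ (W : ℝ) := by exact_mod_cast hWpos
  have h34 : (W : ℝ) ^ 34 ≤ Real.sqrt (Real.log x) := WW_yy_pow_le hL1
  have hW68 : (W : ℝ) ^ 68 ≤ Real.log x := by
    have h1 : (W : ℝ) ^ 68 = (W : ℝ) ^ 34 * (W : ℝ) ^ 34 := by rw [← pow_add]
    rw [h1, ← Real.mul_self_sqrt (by linarith : (0 : ℝ) ≤ Real.log x)]
    exact mul_le_mul h34 h34 (by positivity) (by positivity)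
  have hW34 : (W : ℝ) ^ 34 ≤ Real.log x :=
    (pow_le_pow_right₀ hW1 (by norm_num)).trans hW68
  have hφL : (W.totient : ℝ) ≤ Real.log x := by
    have h1 : (W.totient : ℝ) ≤ (W : ℝ) := by exact_mod_cast Nat.totient_le W
    have h2 : (W : ℝ) ≤ (W : ℝ) ^ 68 := le_self_pow₀ hW1 (by norm_num)
    linarith
  have hφ0 : (0 : ℝ) < (W.totient : ℝ) := by exact_mod_cast Nat.totient_pos.mpr hWpos
  -- small primes
  have hwq : (w : ℝ) < x ^ (1 / 4 : ℝ) := by
    have h1 : (w : ℝ) ≤ Real.log (Real.log x) / 100 := by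
      rw [hw]
      unfold yy
      apply Nat.floor_le
      have := Real.log_nonneg hL1
      positivity
    have h2 : Real.log (Real.log x) ≤ Real.log x := (Real.log_le_self (by linarith))
    have h3 : Real.log x ≤ x ^ (1 / 4 : ℝ) / (1 / 4 : ℝ) := Real.log_le_rpow_div hx0 (by norm_num)
    have h4 : 0 < x ^ (1 / 4 : ℝ) := Real.rpow_pos_of_pos (by linarith) _
    linarith
  have hcop : ∀ n : ℕ, n ∈ Finset.range (⌊x⌋₊ + 1) → ¬ (n % W).Coprime W → La x (n : ℤ) = 0 := by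
    intro n _ hnc
    unfold La
    rw [if_neg]
    rintro ⟨h1, h2, _⟩
    rw [APP_isP] at h1
    rw [Int.cast_natCast] at h2
    apply hnc
    have h3 : n.Coprime W := by
      rw [hWdef, coprime_WW]
      intro p hp hpn
      rw [mem_PP] at hp
      have h4 : p = n := (Nat.prime_dvd_prime_iff_eq hp.2 h1).mp hpn
      have h5 : (p : ℝ) ≤ (w : ℝ) := by exact_mod_cast hp.1
      rw [h4] at h5
      linarith
    unfold Nat.Coprime at h3 ⊢
    rw [← Nat.gcd_rec, Nat.gcd_comm]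
    exact h3
  by_cases hac : c.Coprime W
  · have hM : Mm w (c : ℤ) = (W : ℝ) / (W.totient : ℝ) := by
      unfold Mm
      rw [if_pos]
      · rfl
      · rw [← hWdef, Int.gcd_natCast_natCast]
        exact hac
    have hu : IsUnit (c : ZMod W) := (ZMod.isUnit_iff_coprime c W).mpr hac
    have hcl := APP_class hε hx3 hL1 hpow hWpos hφL hcW (hX1 x hx1 W (c : ZMod W) hu hW68)
      (hX2 x hx2 W (c : ZMod W) hu hW34)
    have hWR : (W : ℝ) ≠ 0 := by positivity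
    have e1 : ((⌊x⌋₊ : ℝ) + 1) / (W : ℝ) * Mm w (c : ℤ) = ((⌊x⌋₊ : ℝ) + 1) / (W.totient : ℝ) := by
      rw [hM]
      field_simp
    rw [e1]
    exact hcl
  · have hM : Mm w (c : ℤ) = 0 := by
      unfold Mm
      rw [if_neg]
      rw [← hWdef, Int.gcd_natCast_natCast]
      exact hac
    rw [hM, mul_zero, mul_zero, sub_zero]
    have h1 : ∑ n ∈ (Finset.range (⌊x⌋₊ + 1)).filter (fun n => n % W = c), La x (n : ℤ) = 0 := by
      refine Finset.sum_eq_zero fun n hn => ?_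
      rw [Finset.mem_filter] at hn
      exact hcop n hn.1 (by rw [hn.2]; exact hac)
    rw [h1, abs_zero]

/-- `(log x)^2 ≤ x^(1/4)` for large `x` -/
lemma APP_H : ∃ X : ℝ, ∀ x : ℝ, X ≤ x → (Real.log x) ^ 2 ≤ x ^ (1 / 4 : ℝ) := by
  have h2 := isLittleO_log_rpow_atTop (show (0 : ℝ) < 1 / 8 by norm_num)
  have h3 := h2.bound (show (0 : ℝ) < 1 by norm_num)
  obtain ⟨X, hX⟩ := Filter.eventually_atTop.1 h3
  refine ⟨max X 1, fun x hx => ?_⟩
  have hx1 : 1 ≤ x := le_trans (le_max_right _ _) hx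
  have hx0 : 0 ≤ x := by linarith
  have h4 := hX x (le_trans (le_max_left _ _) hx)
  rw [Real.norm_eq_abs, Real.norm_eq_abs, abs_of_nonneg (Real.log_nonneg hx1),
    abs_of_nonneg (Real.rpow_nonneg hx0 _), one_mul] at h4
  have h5 : (Real.log x) ^ 2 ≤ (x ^ (1 / 8 : ℝ)) ^ 2 := pow_le_pow_left₀ (Real.log_nonneg hx1) h4 2
  refine h5.trans (le_of_eq ?_)
  rw [← Real.rpow_natCast, ← Real.rpow_mul hx0]
  norm_num

/-- the primes `n - a`, `n ∈ JC x H t` -/
theorem APP (ε : ℝ) (hε : 0 < ε) : ∃ X : ℝ, ∀ x : ℝ, X ≤ x → ∀ H : ℕ, (H : ℝ) ≤ (Real.log x) ^ 2 →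
    ∀ t : ℕ, t < WW (yy x) → ∀ a ∈ Finset.Icc 1 (H : ℤ),
    |∑ n ∈ JC x H t, La x ((n : ℤ) - a) - ((⌊x⌋₊ : ℝ) + 1) / (WW (yy x) : ℝ) * Mm (yy x) ((t : ℤ) - a)| ≤
      ε * (((⌊x⌋₊ : ℝ) + 1) / (WW (yy x) : ℝ) * Mm (yy x) ((t : ℤ) - a)) := by
  obtain ⟨X1, hX1⟩ := APP0 ε hε
  obtain ⟨X2, hX2⟩ := APP_H
  refine ⟨max X1 (max X2 1), fun x hx H hH t ht a ha => ?_⟩
  have hx1 : X1 ≤ x := (le_max_left _ _).trans hx
  have hx2 : X2 ≤ x := (le_max_left _ _).trans ((le_max_right _ _).trans hx)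
  have hx3 : 1 ≤ x := (le_max_right _ _).trans ((le_max_right _ _).trans hx)
  have hx0 : 0 ≤ x := by linarith
  have hHx : (H : ℝ) ≤ x ^ (1 / 4 : ℝ) := hH.trans (hX2 x hx2)
  rw [Finset.mem_Icc] at ha
  set W : ℕ := WW (yy x) with hW
  have hWpos : 0 < W := WW_pos _
  have hWz : (0 : ℤ) < (W : ℤ) := by exact_mod_cast hWpos
  -- the class of `t - a`
  obtain ⟨c, hc⟩ : ∃ c : ℕ, (c : ℤ) = ((t : ℤ) - a) % (W : ℤ) :=
    ⟨(((t : ℤ) - a) % (W : ℤ)).toNat, Int.toNat_of_nonneg (Int.emod_nonneg _ hWz.ne')⟩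
  have hcW : c < W := by
    have := Int.emod_lt_of_pos ((t : ℤ) - a) hWz
    omega
  have hM : Mm (yy x) ((t : ℤ) - a) = Mm (yy x) (c : ℤ) := by
    have h1 := Int.emod_add_mul_ediv ((t : ℤ) - a) (W : ℤ)
    have h2 : (t : ℤ) - a = (c : ℤ) + (((t : ℤ) - a) / (W : ℤ)) * (W : ℤ) := by
      rw [hc]
      linarith [mul_comm (W : ℤ) (((t : ℤ) - a) / (W : ℤ))]
    rw [h2]
    exact Mm_period (yy x) _ _
  rw [hM]
  have h0 := hX1 x hx1 c hcW
  -- the sums agree
  have hsum : ∑ n ∈ JC x H t, La x ((n : ℤ) - a) =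
      ∑ n ∈ (Finset.range (⌊x⌋₊ + 1)).filter (fun n => n % W = c), La x (n : ℤ) := by
    have hLa : ∀ m : ℤ, La x m ≠ 0 → (H : ℤ) < m ∧ m < ((⌊x⌋₊ + 1 : ℕ) : ℤ) := by
      intro m hm
      unfold La at hm
      by_cases h : isP m ∧ x ^ (1 / 4 : ℝ) < (m : ℝ) ∧ (m : ℝ) ≤ x
      · constructor
        · have : (H : ℝ) < (m : ℝ) := lt_of_le_of_lt hHx h.2.1
          exact_mod_cast this
        · have h1 : (m : ℝ) < ((⌊x⌋₊ + 1 : ℕ) : ℝ) := by
            push_cast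
            exact lt_of_le_of_lt h.2.2 (Nat.lt_floor_add_one x)
          exact_mod_cast h1
      · rw [if_neg h] at hm
        exact absurd rfl hm
    have hmodeq : ∀ n : ℕ, ∀ m : ℕ, (n : ℤ) = (m : ℤ) + a → (n % W = t ↔ m % W = c) := by
      intro n m hnm
      have e1 : (n % W = t) ↔ ((n : ℤ) % (W : ℤ) = (t : ℤ)) := by
        constructor
        · intro h
          rw [← h]
          push_cast
          rfl
        · intro h
          have : ((n % W : ℕ) : ℤ) = (t : ℤ) := by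
            push_cast
            exact h
          exact_mod_cast this
      have e2 : (m % W = c) ↔ ((m : ℤ) % (W : ℤ) = (c : ℤ)) := by
        constructor
        · intro h
          rw [← h]
          push_cast
          rfl
        · intro h
          have : ((m % W : ℕ) : ℤ) = (c : ℤ) := by
            push_cast
            exact h
          exact_mod_cast this
      rw [e1, e2]
      have htW : (t : ℤ) % (W : ℤ) = (t : ℤ) := Int.emod_eq_of_lt (by positivity) (by exact_mod_cast ht)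
      have hcc : (c : ℤ) = ((t : ℤ) - a) % (W : ℤ) := hc
      constructor
      · intro h
        have h1 : ((n : ℤ) - a) % (W : ℤ) = ((t : ℤ) - a) % (W : ℤ) := by
          have h5 : (n : ℤ) ≡ (t : ℤ) [ZMOD (W : ℤ)] := by
            show (n : ℤ) % (W : ℤ) = (t : ℤ) % (W : ℤ)
            rw [h, htW]
          exact h5.sub_right a
        have h2 : (n : ℤ) - a = (m : ℤ) := by linarith
        rw [← h2, h1, hcc]
      · intro h
        have h1 : ((m : ℤ) + a) % (W : ℤ) = (((t : ℤ) - a) + a) % (W : ℤ) := by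
          have h5 : (m : ℤ) ≡ (t : ℤ) - a [ZMOD (W : ℤ)] := by
            show (m : ℤ) % (W : ℤ) = ((t : ℤ) - a) % (W : ℤ)
            rw [h, hcc]
          exact h5.add_right a
        rw [hnm, h1, sub_add_cancel, htW]
    refine Finset.sum_bij_ne_zero (fun n _ _ => ((n : ℤ) - a).toNat) ?_ ?_ ?_ ?_
    · intro n hn hne
      have h1 := hLa _ hne
      unfold JC JJ at hn
      rw [Finset.mem_filter, Finset.mem_Ico] at hn
      rw [Finset.mem_filter, Finset.mem_range]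
      refine ⟨by omega, ?_⟩
      exact (hmodeq n ((n : ℤ) - a).toNat (by omega)).1 hn.2
    · intro n hn hne n' hn' hne' h
      have h1 := hLa _ hne
      have h2 := hLa _ hne'
      have h3 : ((n : ℤ) - a).toNat = ((n' : ℤ) - a).toNat := h
      omega
    · intro m hm hne
      have h1 := hLa _ hne
      rw [Finset.mem_filter, Finset.mem_range] at hm
      refine ⟨((m : ℤ) + a).toNat, ?_, ?_, ?_⟩
      · unfold JC JJ
        rw [Finset.mem_filter, Finset.mem_Ico]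
        refine ⟨⟨by omega, by omega⟩, ?_⟩
        exact (hmodeq ((m : ℤ) + a).toNat m (by omega)).2 hm.2
      · have h2 : ((((m : ℤ) + a).toNat : ℕ) : ℤ) - a = (m : ℤ) := by omega
        rw [h2]
        exact hne
      · show (((((m : ℤ) + a).toNat : ℕ) : ℤ) - a).toNat = m
        omega
    · intro n hn hne
      have h1 := hLa _ hne
      have h2 : ((((n : ℤ) - a).toNat : ℕ) : ℤ) = (n : ℤ) - a := by omega
      show La x ((n : ℤ) - a) = La x ((((n : ℤ) - a).toNat : ℕ) : ℤ)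
      rw [h2]
  rw [hsum]
  exact h0

end Pool.Agent.H6.AS
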