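import Pool.Agent.H6.MF.Defs

/-! The number of prime tuples with the shape of a finite set of integers. -/

set_option autoImplicit false

namespace Pool.Agent.H6.AS

open Pool.Agent.H6.MF

/-- the number of integers `m` such that `m + e` is a prime `≤ x` for all `e ∈ E` -/
noncomputable def pcn (x : ℝ) (E : Finset ℤ) : ℕ :=
  Set.ncard {m : ℤ | ∀ e ∈ E, isP (m + e) ∧ ((m + e : ℤ) : ℝ) ≤ x}

end Pool.Agent.H6.AS
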