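import Pool.Agent.H6.AS.FIN
import Pool.Agent.H6.AS.Pcn
import Pool.Agent.H6.MF.BRG
import Pool.Agent.H39.MT.Fin

/-!
# ARB: arbitrary sets of shifts (final form, see `Pool/Agent/Results/MP_1039f5_nt/ArbitraryShifts.lean`)

`pcn x E` is the number of integers `m` such that `m + e` is a prime `≤ x` for all `e ∈ E`; for `E = {a, b, c}`, `a < b < c`, it is
`π₃(x; c - b, c - a)`. `PCN`: comparison with `cnt`. `ARB2` from `FIN`, `FINlow`; `ARB1` from `every_set`, `every_set_proportion` (H39).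
-/

set_option autoImplicit false

namespace Pool.Agent.H6.AS

open Finset Pool.Agent.H17 Pool.Agent.H6.MF Pool.Agent.H6.MB Pool.Agent.H12.DM Pool.Agent.H96.AS Pool.Agent.H6.AE

/-- reflection -/
def rf (c : ℤ) (E : Finset ℤ) : Finset ℤ := E.image (fun e => c - e)

lemma rf_inj (c : ℤ) : Function.Injective (fun e : ℤ => c - e) := fun a b h => by
  have h1 : c - a = c - b := h
  omega

lemma card_rf (c : ℤ) (E : Finset ℤ) : (rf c E).card = E.card := Finset.card_image_of_injective _ (rf_inj c)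

lemma rf_rf (c : ℤ) (E : Finset ℤ) : rf c (rf c E) = E := by
  unfold rf
  rw [Finset.image_image]
  have : ((fun e : ℤ => c - e) ∘ fun e : ℤ => c - e) = id := by
    funext e
    simp
  rw [this, Finset.image_id]

lemma mem_rf {c : ℤ} {E : Finset ℤ} {a : ℤ} : a ∈ rf c E ↔ c - a ∈ E := by
  unfold rf
  rw [Finset.mem_image]
  constructor
  · rintro ⟨e, he, rfl⟩
    simpa using he
  · intro h
    exact ⟨c - a, h, by ring⟩

lemma nuH_rf (c : ℤ) (E : Finset ℤ) (p : ℕ) : nuH (rf c E) p = nuH E p := by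
  unfold nuH rf
  rw [Finset.image_image]
  have h1 : E.image ((fun h => h % (p : ℤ)) ∘ fun e => c - e) =
      (E.image (fun h => h % (p : ℤ))).image (fun z => (c - z) % (p : ℤ)) := by
    rw [Finset.image_image]
    refine Finset.image_congr fun a _ => ?_
    simp only [Function.comp]
    exact (Int.ModEq.sub (Int.ModEq.refl c) (Int.mod_modEq a p)).symm
  rw [h1]
  refine Finset.card_image_of_injOn ?_
  intro a ha b hb hab
  obtain ⟨a', -, rfl⟩ := Finset.mem_image.1 (Finset.mem_coe.1 ha)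
  obtain ⟨b', -, rfl⟩ := Finset.mem_image.1 (Finset.mem_coe.1 hb)
  have h2 : (c - a' % (p : ℤ)) ≡ (c - b' % (p : ℤ)) [ZMOD p] := hab
  have h3 : a' % (p : ℤ) ≡ b' % (p : ℤ) [ZMOD p] := by
    have := (Int.ModEq.refl c).sub h2
    simpa using this
  have h4 : a' % (p : ℤ) % (p : ℤ) = b' % (p : ℤ) % (p : ℤ) := h3
  simpa using h4

lemma sing_rf (c : ℤ) (E : Finset ℤ) : sing (rf c E) = sing E := by
  unfold sing loc
  simp only [nuH_rf, card_rf]

lemma sum_rf (c : ℤ) (A : Finset ℤ) (k : ℕ) (F : Finset ℤ → ℝ) :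
    ∑ E ∈ Finset.powersetCard k (rf c A), F E = ∑ E ∈ Finset.powersetCard k A, F (rf c E) := by
  have hmem : ∀ (B E : Finset ℤ), E ∈ Finset.powersetCard k B → rf c E ∈ Finset.powersetCard k (rf c B) := by
    intro B E hE
    rw [Finset.mem_powersetCard] at hE ⊢
    exact ⟨Finset.image_subset_image hE.1, (card_rf c E).trans hE.2⟩
  refine Finset.sum_nbij' (fun E => rf c E) (fun E => rf c E) ?_ ?_ ?_ ?_ ?_
  · intro E hE
    have h := hmem _ _ hE
    rw [rf_rf] at h
    exact h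
  · exact fun E hE => hmem _ _ hE
  · exact fun E _ => rf_rf c E
  · exact fun E _ => rf_rf c E
  · intro E _
    simp only [rf_rf]

theorem PCN {x : ℝ} (hx : 0 ≤ x) (c : ℤ) (E : Finset ℤ) (e₀ : ℤ) (he₀ : e₀ ∈ E) (M : ℕ) (hM : c - e₀ ≤ M)
    (hc : ∀ e ∈ E, e ≤ c) : cnt x (rf c E) ≤ pcn x E ∧ pcn x E ≤ cnt x (rf c E) + M := by
  classical
  have hpos : ∀ m : ℤ, isP m → 0 < m := by
    intro m hm
    by_contra hcon
    unfold isP at hm
    rw [Int.toNat_of_nonpos (not_lt.1 hcon)] at hm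
    exact Nat.not_prime_zero hm
  obtain ⟨S, hS⟩ : ∃ S, S = (Finset.range (⌊x⌋₊ + 1 + M)).filter
      (fun n : ℕ => ∀ e ∈ E, isP ((n : ℤ) - c + e) ∧ (((n : ℤ) - c + e : ℤ) : ℝ) ≤ x) := ⟨_, rfl⟩
  obtain ⟨T, hT⟩ : ∃ T, T = (Finset.range (⌊x⌋₊ + 1)).filter (fun n : ℕ => ∀ h ∈ rf c E, isP ((n : ℤ) - h)) := ⟨_, rfl⟩
  have hcnt : cnt x (rf c E) = T.card := by
    rw [hT]
    rfl
  have hset : {m : ℤ | ∀ e ∈ E, isP (m + e) ∧ ((m + e : ℤ) : ℝ) ≤ x} = ((S.image (fun n : ℕ => (n : ℤ) - c) : Finset ℤ) : Set ℤ) := by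
    ext m
    rw [Set.mem_setOf_eq, Finset.mem_coe, Finset.mem_image]
    constructor
    · intro h
      have h1 := h e₀ he₀
      have h2 := hpos _ h1.1
      have h3 := hc e₀ he₀
      have h4 : (((m + c).toNat : ℕ) : ℤ) = m + c := Int.toNat_of_nonneg (by omega)
      refine ⟨(m + c).toNat, ?_, by rw [h4]; ring⟩
      rw [hS, Finset.mem_filter, Finset.mem_range]
      refine ⟨?_, ?_⟩
      · have h5 : (m + e₀).toNat ≤ ⌊x⌋₊ := by
          refine Nat.le_floor ?_
          have h6 : (((m + e₀).toNat : ℕ) : ℤ) = m + e₀ := Int.toNat_of_nonneg (by omega)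
          have h7 : (((m + e₀).toNat : ℕ) : ℝ) = ((m + e₀ : ℤ) : ℝ) := by exact_mod_cast congrArg (Int.cast : ℤ → ℝ) h6
          rw [h7]
          exact h1.2
        omega
      · intro e he
        rw [h4, show m + c - c + e = m + e by ring]
        exact h e he
    · rintro ⟨n, hn, rfl⟩
      rw [hS, Finset.mem_filter] at hn
      exact hn.2
  have hpcn : pcn x E = S.card := by
    unfold pcn
    rw [hset, Set.ncard_coe_finset]
    refine Finset.card_image_of_injective _ fun a b h => ?_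
    have h1 : (a : ℤ) - c = (b : ℤ) - c := h
    omega
  rw [hcnt, hpcn]
  constructor
  · refine Finset.card_le_card fun n hn => ?_
    rw [hT, Finset.mem_filter, Finset.mem_range] at hn
    rw [hS, Finset.mem_filter, Finset.mem_range]
    refine ⟨by omega, fun e he => ?_⟩
    have h1 := hn.2 (c - e) (mem_rf.2 (by simpa using he))
    rw [show (n : ℤ) - (c - e) = (n : ℤ) - c + e by ring] at h1
    refine ⟨h1, ?_⟩
    have h2 := hc e he
    have h3 : ((n : ℤ) - c + e : ℤ) ≤ (⌊x⌋₊ : ℤ) := by omega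
    calc (((n : ℤ) - c + e : ℤ) : ℝ) ≤ ((⌊x⌋₊ : ℤ) : ℝ) := by exact_mod_cast h3
      _ = (⌊x⌋₊ : ℝ) := by push_cast; rfl
      _ ≤ x := Nat.floor_le hx
  · have h1 : S ⊆ T ∪ Finset.Ico (⌊x⌋₊ + 1) (⌊x⌋₊ + 1 + M) := by
      intro n hn
      rw [hS, Finset.mem_filter, Finset.mem_range] at hn
      rw [Finset.mem_union, Finset.mem_Ico, hT, Finset.mem_filter, Finset.mem_range]
      by_cases h : n < ⌊x⌋₊ + 1
      · left
        refine ⟨h, fun b hb => ?_⟩
        have h2 := (hn.2 (c - b) (mem_rf.1 hb)).1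
        rwa [show (n : ℤ) - c + (c - b) = (n : ℤ) - b by ring] at h2
      · right
        omega
    refine (Finset.card_le_card h1).trans ((Finset.card_union_le _ _).trans ?_)
    rw [Nat.card_Ico]
    omega

lemma ARB_card {A : Finset ℤ} {M : ℕ} (hA : A ⊆ Finset.Icc 1 (M : ℤ)) {L : ℝ} (hL : (M : ℝ) ≤ L ^ 2) (k : ℕ) :
    ((Finset.powersetCard k A).card : ℝ) ≤ L ^ (2 * k) := by
  have h3 : (Finset.powersetCard k A).card ≤ A.card ^ k := by
    rw [Finset.card_powersetCard]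
    exact Nat.choose_le_pow _ _
  have h4 : A.card ≤ M := by
    have := Finset.card_le_card hA
    rwa [Int.card_Icc, show ((M : ℤ) + 1 - 1).toNat = M by omega] at this
  have h5 : (A.card : ℝ) ≤ L ^ 2 := le_trans (by exact_mod_cast h4) hL
  calc ((Finset.powersetCard k A).card : ℝ) ≤ (A.card : ℝ) ^ k := by exact_mod_cast h3
    _ ≤ (L ^ 2) ^ k := pow_le_pow_left₀ (Nat.cast_nonneg _) h5 _
    _ = L ^ (2 * k) := by rw [← pow_mul]

/-- sets of at least `K log x` shifts -/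
theorem ARB2 (j : ℕ) (hj : 1 ≤ j) (ε : ℝ) (hε : 0 < ε) : ∃ K X : ℝ, ∀ x : ℝ, X ≤ x → ∀ u : ℤ, ∀ A : Finset ℤ,
    (∀ a ∈ A, u < a ∧ (a : ℝ) ≤ u + (Real.log x) ^ 2) → K * Real.log x ≤ (A.card : ℝ) →
    ∑ E ∈ Finset.powersetCard (j + 1) A, max 0 ((Real.log x) ^ (j + 1) * (pcn x E : ℝ) / x - 4 ^ j * sing E) ≤
      ε * ∑ E ∈ Finset.powersetCard (j + 1) A, sing E ∧
    (1 - ε) * ∑ E ∈ Finset.powersetCard (j + 1) A, sing E ≤
      ∑ E ∈ Finset.powersetCard (j + 1) A, (Real.log x) ^ (j + 1) * (pcn x E : ℝ) / x ∧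
    ∀ h : ℝ, 0 ≤ h → h ≤ 1 →
      (h - ε) * ∑ E ∈ Finset.powersetCard (j + 1) A, sing E ≤ (4 ^ j - (1 - h)) *
        ∑ E ∈ (Finset.powersetCard (j + 1) A).filter (fun E =>
          (1 - h) * (sing E * x / (Real.log x) ^ (j + 1)) ≤ (pcn x E : ℝ)), sing E := by
  classical
  obtain ⟨K1, X1, hK1, hX1⟩ := FIN j hj (ε / 2) (by positivity)
  obtain ⟨K2, X2, hK2, hX2⟩ := FINlow j ε hε
  obtain ⟨X3, hX3⟩ := TS_size j
  obtain ⟨X4, hX4⟩ := PW_sing (j + 1) (1 / 2) (by norm_num)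
  obtain ⟨X5, hX5⟩ := FIN_ev (2 * (j + 1) + (j + 1) + 2) (ε / 4) (by positivity)
  refine ⟨max K1 K2, max (max X1 X2) (max X3 (max X4 X5)), fun x hx u A hA hKA => ?_⟩
  simp only [max_le_iff] at hx
  obtain ⟨⟨hx1, hx2⟩, hx3, hx4, hx5⟩ := hx
  obtain ⟨hxe, hpow⟩ := hX5 x hx5
  have hx0 : 0 < x := (Real.exp_pos 1).trans_le hxe
  have hL : 1 ≤ Real.log x := (Real.le_log_iff_exp_le hx0).2 hxe
  have hxone : 1 ≤ x := by
    have := Real.add_one_le_exp (1 : ℝ)
    linarith
  have hKA1 : K1 * Real.log x ≤ (A.card : ℝ) := (mul_le_mul_of_nonneg_right (le_max_left _ _) (by linarith)).trans hKA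
  have hKA2 : K2 * Real.log x ≤ (A.card : ℝ) := (mul_le_mul_of_nonneg_right (le_max_right _ _) (by linarith)).trans hKA
  have hKA3 : Real.log x ≤ (A.card : ℝ) := by
    refine le_trans ?_ hKA1
    have := mul_le_mul_of_nonneg_right hK1 (by linarith : (0 : ℝ) ≤ Real.log x)
    linarith
  obtain ⟨M, hM⟩ : ∃ M, M = ⌊(Real.log x) ^ 2⌋₊ := ⟨_, rfl⟩
  have hML : (M : ℝ) ≤ (Real.log x) ^ 2 := by rw [hM]; exact Nat.floor_le (by positivity)
  obtain ⟨c, hc⟩ : ∃ c, c = u + M + 1 := ⟨_, rfl⟩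
  have hA2 : ∀ a ∈ A, u < a ∧ a ≤ u + M := by
    intro a ha
    obtain ⟨h1, h2⟩ := hA a ha
    refine ⟨h1, ?_⟩
    have h3 : (((a - u).toNat : ℕ) : ℤ) = a - u := Int.toNat_of_nonneg (by omega)
    have h4 : (((a - u).toNat : ℕ) : ℝ) = ((a - u : ℤ) : ℝ) := by exact_mod_cast congrArg (Int.cast : ℤ → ℝ) h3
    have h5 : (a - u).toNat ≤ M := by
      rw [hM]
      refine Nat.le_floor ?_
      rw [h4]
      push_cast
      linarith
    omega
  obtain ⟨B, hB⟩ : ∃ B, B = rf c A := ⟨_, rfl⟩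
  have hBc : B.card = A.card := by rw [hB, card_rf]
  have hBA : B ⊆ Finset.Icc 1 (M : ℤ) := by
    intro b hb
    rw [hB, mem_rf] at hb
    obtain ⟨h1, h2⟩ := hA2 _ hb
    rw [Finset.mem_Icc]
    omega
  have f1 := hX1 x hx1 M hML B hBA (by rw [hBc]; exact hKA1)
  have f2 := hX2 x hx2 M hML B hBA (by rw [hBc]; exact hKA2)
  have f3 := hX3 x hx3 B (by rw [hBc]; exact hKA3)
  obtain ⟨P, hP⟩ : ∃ P, P = Finset.powersetCard (j + 1) A := ⟨_, rfl⟩
  have hPc : ∀ C ∈ P, C ⊆ A ∧ C.card = j + 1 := fun C hC => by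
    rw [hP, Finset.mem_powersetCard] at hC
    exact hC
  have hpc : ∀ C ∈ P, cnt x (rf c C) ≤ pcn x C ∧ pcn x C ≤ cnt x (rf c C) + M := by
    intro C hC
    obtain ⟨h1, h2⟩ := hPc C hC
    obtain ⟨e₀, he₀⟩ : C.Nonempty := Finset.card_pos.1 (by omega)
    refine PCN hx0.le c C e₀ he₀ M ?_ ?_
    · have := hA2 e₀ (h1 he₀)
      omega
    · intro e he
      have := hA2 e (h1 he)
      omega
  -- the sums over `B`
  have hsum : ∀ F : Finset ℤ → ℝ, ∑ E ∈ Finset.powersetCard (j + 1) B, F E = ∑ E ∈ P, F (rf c E) := by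
    intro F
    rw [hB, hP]
    exact sum_rf c A (j + 1) F
  have hU : ∑ E ∈ Finset.powersetCard (j + 1) B, sing E = ∑ E ∈ P, sing E := by
    rw [hsum]
    exact Finset.sum_congr rfl fun E _ => sing_rf c E
  obtain ⟨U, hUdef⟩ : ∃ U, U = ∑ E ∈ P, sing E := ⟨_, rfl⟩
  rw [← hUdef] at hU
  have hU2 : 1 ≤ 2 * U := by
    rw [← hU]
    refine f3.trans ?_
    rw [Finset.mul_sum]
    refine Finset.sum_le_sum fun C hC => ?_
    rw [Finset.mem_powersetCard] at hC
    have h1 := (hX4 x hx4 C (by omega) (by omega) ?_).1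
    · linarith
    · intro a ha a' ha'
      have h1 := Finset.mem_Icc.1 (hBA (hC.1 ha))
      have h2 := Finset.mem_Icc.1 (hBA (hC.1 ha'))
      have h3 : |((a - a' : ℤ) : ℝ)| ≤ (M : ℝ) := by
        have : |a - a'| ≤ (M : ℤ) := by rw [abs_le]; constructor <;> omega
        calc |((a - a' : ℤ) : ℝ)| = ((|a - a'| : ℤ) : ℝ) := by push_cast; rfl
          _ ≤ ((M : ℤ) : ℝ) := by exact_mod_cast this
          _ = (M : ℝ) := by push_cast; rfl
      have h4 : 0 ≤ (Real.log x) ^ 2 := by positivity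
      linarith
  rw [← hP, ← hUdef]
  rw [hU] at f1 f2
  obtain ⟨f1a, f1b⟩ := f1
  refine ⟨?_, ?_, ?_⟩
  · rw [hsum] at f1a
    have h1 : ∀ E ∈ P, max 0 ((Real.log x) ^ (j + 1) * (pcn x E : ℝ) / x - 4 ^ j * sing E) ≤
        max 0 ((Real.log x) ^ (j + 1) * (cnt x (rf c E) : ℝ) / x - 4 ^ j * sing (rf c E)) +
          (Real.log x) ^ (j + 1) * (M : ℝ) / x := by
      intro E hE
      rw [sing_rf]
      have h2 : (pcn x E : ℝ) ≤ (cnt x (rf c E) : ℝ) + M := by exact_mod_cast (hpc E hE).2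
      have h3 : (Real.log x) ^ (j + 1) * (pcn x E : ℝ) / x ≤ (Real.log x) ^ (j + 1) * (cnt x (rf c E) : ℝ) / x +
          (Real.log x) ^ (j + 1) * (M : ℝ) / x := by
        rw [← add_div, ← mul_add]
        exact div_le_div_of_nonneg_right (mul_le_mul_of_nonneg_left h2 (by positivity)) hx0.le
      have h4 : 0 ≤ (Real.log x) ^ (j + 1) * (M : ℝ) / x := by positivity
      refine max_le (add_nonneg (le_max_left _ _) h4) ?_
      have := le_max_right 0 ((Real.log x) ^ (j + 1) * (cnt x (rf c E) : ℝ) / x - 4 ^ j * sing E)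
      linarith
    refine (Finset.sum_le_sum h1).trans ?_
    rw [Finset.sum_add_distrib, Finset.sum_const, nsmul_eq_mul]
    have h5 : (P.card : ℝ) * ((Real.log x) ^ (j + 1) * (M : ℝ) / x) ≤ ε / 4 := by
      have h6 : (P.card : ℝ) ≤ (Real.log x) ^ (2 * (j + 1)) := by
        have h7 := ARB_card hBA hML (j + 1)
        rwa [Finset.card_powersetCard, hBc, ← Finset.card_powersetCard, ← hP] at h7
      have h8 : (P.card : ℝ) * ((Real.log x) ^ (j + 1) * (M : ℝ)) ≤ (Real.log x) ^ (2 * (j + 1) + (j + 1) + 2) := by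
        calc (P.card : ℝ) * ((Real.log x) ^ (j + 1) * (M : ℝ)) ≤
            (Real.log x) ^ (2 * (j + 1)) * ((Real.log x) ^ (j + 1) * (Real.log x) ^ 2) :=
              mul_le_mul h6 (mul_le_mul_of_nonneg_left hML (by positivity)) (by positivity) (by positivity)
          _ = (Real.log x) ^ (2 * (j + 1) + (j + 1) + 2) := by ring
      have h9 : (1 : ℝ) ≤ x ^ (1 / 2 : ℝ) := Real.one_le_rpow hxone (by norm_num)
      rw [← mul_div_assoc, div_le_iff₀ hx0]
      refine h8.trans (le_trans ?_ hpow)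
      exact le_mul_of_one_le_right (by positivity) h9
    have h10 : ε / 4 ≤ ε / 2 * U := by nlinarith
    linarith
  · rw [hsum] at f2
    refine f2.trans (Finset.sum_le_sum fun E hE => ?_)
    have h2 : (cnt x (rf c E) : ℝ) ≤ (pcn x E : ℝ) := by exact_mod_cast (hpc E hE).1
    exact div_le_div_of_nonneg_right (mul_le_mul_of_nonneg_left h2 (by positivity)) hx0.le
  · intro h hh0 hh1
    have h1 := f1b h hh0 hh1
    rw [Finset.sum_filter, hsum] at h1
    have h2 : (h - ε) * U ≤ (h - ε / 2) * U := by nlinarith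
    refine h2.trans (h1.trans ?_)
    have h4j : (1 : ℝ) ≤ 4 ^ j := one_le_pow₀ (by norm_num)
    refine mul_le_mul_of_nonneg_left ?_ (by linarith)
    rw [Finset.sum_filter]
    refine Finset.sum_le_sum fun E hE => ?_
    rw [sing_rf]
    have h3 : (cnt x (rf c E) : ℝ) ≤ (pcn x E : ℝ) := by exact_mod_cast (hpc E hE).1
    split_ifs with h4 h5 h5
    · exact le_rfl
    · exact absurd (h4.trans h3) h5
    · exact sing_nonneg E
    · exact le_rfl

open Pool.Agent.H17.Triple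

lemma ARB_three {E : Finset ℤ} (hE : E.card = 3) : ∃ a b c : ℤ, a < b ∧ b < c ∧ E = {a, b, c} := by
  obtain ⟨x, y, z, hxy, hxz, hyz, rfl⟩ := Finset.card_eq_three.1 hE
  rcases lt_or_gt_of_ne hxy with h1 | h1 <;> rcases lt_or_gt_of_ne hxz with h2 | h2 <;> rcases lt_or_gt_of_ne hyz with h3 | h3
  · exact ⟨x, y, z, h1, h3, rfl⟩
  · exact ⟨x, z, y, h2, h3, by ext w; simp only [Finset.mem_insert, Finset.mem_singleton]; tauto⟩
  · omega
  · exact ⟨z, x, y, h2, h1, by ext w; simp only [Finset.mem_insert, Finset.mem_singleton]; tauto⟩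
  · exact ⟨y, x, z, h1, h2, by ext w; simp only [Finset.mem_insert, Finset.mem_singleton]; tauto⟩
  · omega
  · exact ⟨y, z, x, h3, h2, by ext w; simp only [Finset.mem_insert, Finset.mem_singleton]; tauto⟩
  · exact ⟨z, y, x, h3, h1, by ext w; simp only [Finset.mem_insert, Finset.mem_singleton]; tauto⟩

lemma ARB_rf3 {a b c : ℤ} (hab : a < b) (hbc : b < c) :
    rf c {a, b, c} = {0, (((c - b).toNat : ℕ) : ℤ), (((c - a).toNat : ℕ) : ℤ)} := by
  have h1 : (((c - b).toNat : ℕ) : ℤ) = c - b := Int.toNat_of_nonneg (by omega)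
  have h2 : (((c - a).toNat : ℕ) : ℤ) = c - a := Int.toNat_of_nonneg (by omega)
  rw [h1, h2]
  ext w
  rw [mem_rf]
  simp only [Finset.mem_insert, Finset.mem_singleton]
  omega

lemma ARB_sing3 {a b c : ℤ} (hab : a < b) (hbc : b < c) :
    singularSeries (c - b).toNat (c - a).toNat = sing {a, b, c} := by
  rw [← sing_rf c {a, b, c}, ARB_rf3 hab hbc, sing_triple (by omega) (by omega)]
  rfl

lemma ARB_pcn3 {x : ℝ} (hx : 0 ≤ x) {a b c : ℤ} (hab : a < b) (hbc : b < c) :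
    primeTriples x (c - b).toNat (c - a).toNat = pcn x {a, b, c} := by
  have h1 := PCN hx c {a, b, c} c (by simp) 0 (by simp) (by
    intro e he
    simp only [Finset.mem_insert, Finset.mem_singleton] at he
    omega)
  have h2 : pcn x {a, b, c} = cnt x (rf c {a, b, c}) := by omega
  rw [h2, ARB_rf3 hab hbc, cnt_triple]
  rfl

/-- sums over the triples of a set of naturals and over the `3`-subsets of a set of integers -/
lemma ARB_tri (u : ℤ) (A : Finset ℤ) (hA : ∀ a ∈ A, u < a) (F : ℕ × ℕ × ℕ → ℝ) (G : Finset ℤ → ℝ)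
    (hFG : ∀ a b c : ℤ, u < a → a < b → b < c → F ((a - u).toNat, (b - u).toNat, (c - u).toNat) = G {a, b, c}) :
    ∑ t ∈ triples (A.image (fun a => (a - u).toNat)), F t =
      ∑ E ∈ (Finset.powersetCard 3 A).filter (fun E => sing E ≠ 0), G E := by
  have hmem : ∀ n : ℕ, n ∈ A.image (fun a => (a - u).toNat) → u + (n : ℤ) ∈ A ∧ u < u + (n : ℤ) := by
    intro n hn
    obtain ⟨a, ha, rfl⟩ := Finset.mem_image.1 hn
    have h1 := hA a ha
    have h2 : (((a - u).toNat : ℕ) : ℤ) = a - u := Int.toNat_of_nonneg (by omega)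
    rw [h2]
    constructor
    · rwa [show u + (a - u) = a by ring]
    · omega
  have hS : ∀ a b c : ℕ, a < b → b < c → singularSeries (c - b) (c - a) = sing {u + (a : ℤ), u + (b : ℤ), u + (c : ℤ)} := by
    intro a b c hab hbc
    rw [← ARB_sing3 (by omega) (by omega)]
    congr 1 <;> omega
  refine Finset.sum_bij (fun t _ => ({u + (t.1 : ℤ), u + (t.2.1 : ℤ), u + (t.2.2 : ℤ)} : Finset ℤ)) ?_ ?_ ?_ ?_
  · rintro ⟨a, b, c⟩ ht
    unfold triples at ht
    rw [Finset.mem_filter, Finset.mem_product, Finset.mem_product] at ht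
    obtain ⟨⟨h1, h2, h3⟩, h4, h5, h6⟩ := ht
    simp only at h1 h2 h3 h4 h5 h6
    rw [Finset.mem_filter, Finset.mem_powersetCard]
    refine ⟨⟨?_, ?_⟩, ?_⟩
    · intro w hw
      simp only [Finset.mem_insert, Finset.mem_singleton] at hw
      rcases hw with rfl | rfl | rfl
      · exact (hmem _ h1).1
      · exact (hmem _ h2).1
      · exact (hmem _ h3).1
    · exact Finset.card_eq_three.2 ⟨_, _, _, by simp only; omega, by simp only; omega, by simp only; omega, rfl⟩
    · rw [← hS a b c h4 h5]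
      exact h6
  · rintro ⟨a, b, c⟩ ht ⟨a', b', c'⟩ ht' h
    unfold triples at ht ht'
    rw [Finset.mem_filter] at ht ht'
    obtain ⟨_, h4, h5, _⟩ := ht
    obtain ⟨_, h4', h5', _⟩ := ht'
    simp only at h4 h5 h4' h5' h
    rw [Finset.ext_iff] at h
    simp only [Finset.mem_insert, Finset.mem_singleton] at h
    have e1 := (h (u + a)).1 (Or.inl rfl)
    have e2 := (h (u + b)).1 (Or.inr (Or.inl rfl))
    have e3 := (h (u + c)).1 (Or.inr (Or.inr rfl))
    have e4 := (h (u + a')).2 (Or.inl rfl)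
    have e5 := (h (u + b')).2 (Or.inr (Or.inl rfl))
    have e6 := (h (u + c')).2 (Or.inr (Or.inr rfl))
    have r1 : a = a' := by omega
    have r2 : b = b' := by omega
    have r3 : c = c' := by omega
    rw [r1, r2, r3]
  · intro E hE
    rw [Finset.mem_filter, Finset.mem_powersetCard] at hE
    obtain ⟨⟨hE1, hE2⟩, hE3⟩ := hE
    obtain ⟨a, b, c, hab, hbc, rfl⟩ := ARB_three hE2
    have ha : a ∈ A := hE1 (by simp)
    have hb : b ∈ A := hE1 (by simp)
    have hc : c ∈ A := hE1 (by simp)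
    have ha' := hA a ha
    have h2 : (((a - u).toNat : ℕ) : ℤ) = a - u := Int.toNat_of_nonneg (by omega)
    have h3 : (((b - u).toNat : ℕ) : ℤ) = b - u := Int.toNat_of_nonneg (by omega)
    have h4 : (((c - u).toNat : ℕ) : ℤ) = c - u := Int.toNat_of_nonneg (by omega)
    have h5 : ({u + (((a - u).toNat : ℕ) : ℤ), u + (((b - u).toNat : ℕ) : ℤ), u + (((c - u).toNat : ℕ) : ℤ)} : Finset ℤ) =
        {a, b, c} := by
      rw [h2, h3, h4]
      congr 1
      · ring
      · congr 1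
        · ring
        · congr 1
          ring
    refine ⟨((a - u).toNat, (b - u).toNat, (c - u).toNat), ?_, h5⟩
    unfold triples
    rw [Finset.mem_filter, Finset.mem_product, Finset.mem_product]
    refine ⟨⟨Finset.mem_image_of_mem _ ha, Finset.mem_image_of_mem _ hb, Finset.mem_image_of_mem _ hc⟩, ?_, ?_, ?_⟩
    · simp only
      omega
    · simp only
      omega
    · simp only
      rw [hS _ _ _ (by omega) (by omega), h5]
      exact hE3
  · rintro ⟨a, b, c⟩ ht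
    unfold triples at ht
    rw [Finset.mem_filter, Finset.mem_product, Finset.mem_product] at ht
    obtain ⟨⟨h1, h2, h3⟩, h4, h5, h6⟩ := ht
    simp only at h1 h2 h3 h4 h5 h6
    have h7 := hFG (u + a) (u + b) (u + c) (hmem _ h1).2 (by omega) (by omega)
    simp only
    rw [← h7]
    congr 1
    rw [Prod.mk.injEq, Prod.mk.injEq]
    refine ⟨?_, ?_, ?_⟩ <;> omega

/-- sets of at least `ε log x` shifts -/
theorem ARB1 : ∀ ε : ℝ, 0 < ε → ∃ κ X : ℝ, 0 < κ ∧ ∀ x : ℝ, X ≤ x → ∀ u : ℤ, ∀ A : Finset ℤ,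
    (∀ a ∈ A, u < a ∧ (a : ℝ) ≤ u + (Real.log x) ^ 2) →
    (ε * (Real.log x) ^ 3 ≤ (A.card : ℝ) ^ 3 ∨ ε * (Real.log x) ^ 3 ≤ ∑ E ∈ Finset.powersetCard 3 A, sing E) →
    κ * ∑ E ∈ Finset.powersetCard 3 A, sing E ≤ ∑ E ∈ Finset.powersetCard 3 A, (Real.log x) ^ 3 * (pcn x E : ℝ) / x ∧
    κ * ∑ E ∈ Finset.powersetCard 3 A, sing E ≤ ∑ E ∈ (Finset.powersetCard 3 A).filter (fun E =>
      κ * (sing E * x / (Real.log x) ^ 3) ≤ (pcn x E : ℝ)), sing E := by
  classical
  intro ε hε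
  obtain ⟨c1, X1, hc1, h1⟩ := Pool.Agent.H39.MT.every_set ε hε
  obtain ⟨c2, X2, hc2, h2⟩ := Pool.Agent.H39.MT.every_set_proportion ε hε
  refine ⟨min c1 c2, max (max X1 X2) (Real.exp 1), lt_min hc1 hc2, fun x hx u A hA hcard => ?_⟩
  simp only [max_le_iff] at hx
  obtain ⟨⟨hx1, hx2⟩, hxe⟩ := hx
  have hx0 : 0 < x := (Real.exp_pos 1).trans_le hxe
  have hL : 1 ≤ Real.log x := (Real.le_log_iff_exp_le hx0).2 hxe
  have hL3 : 0 < (Real.log x) ^ 3 := by positivity
  obtain ⟨B, hB⟩ : ∃ B, B = A.image (fun a => (a - u).toNat) := ⟨_, rfl⟩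
  have hA1 : ∀ a ∈ A, u < a := fun a ha => (hA a ha).1
  have hBc : B.card = A.card := by
    rw [hB]
    refine Finset.card_image_of_injOn fun a ha b hb hab => ?_
    have h3 := hA1 a ha
    have h4 := hA1 b hb
    have h5 : (a - u).toNat = (b - u).toNat := hab
    omega
  have hBd : ∀ a ∈ B, ∀ b ∈ B, (b : ℝ) ≤ a + (Real.log x) ^ 2 := by
    intro a _ b hb
    rw [hB, Finset.mem_image] at hb
    obtain ⟨b', hb', rfl⟩ := hb
    obtain ⟨h3, h4⟩ := hA b' hb'
    have h5 : (((b' - u).toNat : ℕ) : ℤ) = b' - u := Int.toNat_of_nonneg (by omega)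
    have h6 : (((b' - u).toNat : ℕ) : ℝ) = ((b' - u : ℤ) : ℝ) := by exact_mod_cast congrArg (Int.cast : ℤ → ℝ) h5
    rw [h6]
    push_cast
    have : (0 : ℝ) ≤ a := Nat.cast_nonneg a
    linarith
  have hSz : ∑ E ∈ (Finset.powersetCard 3 A).filter (fun E => sing E ≠ 0), sing E = ∑ E ∈ Finset.powersetCard 3 A, sing E :=
    Finset.sum_filter_ne_zero _
  have hdif : ∀ a b : ℤ, u < a → a < b → (b - u).toNat - (a - u).toNat = (b - a).toNat := by
    intro a b h3 h4
    omega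
  have hS : ∑ t ∈ triples B, singularSeries (t.2.2 - t.2.1) (t.2.2 - t.1) = ∑ E ∈ Finset.powersetCard 3 A, sing E := by
    rw [← hSz, hB]
    refine ARB_tri u A hA1 _ _ fun a b c ha hab hbc => ?_
    simp only
    rw [hdif b c (by omega) hbc, hdif a c ha (by omega)]
    exact ARB_sing3 hab hbc
  have hcard' : ε * (Real.log x) ^ 3 ≤ (B.card : ℝ) ^ 3 ∨
      ε * (Real.log x) ^ 3 ≤ ∑ t ∈ triples B, singularSeries (t.2.2 - t.2.1) (t.2.2 - t.1) := by
    rw [hBc, hS]
    exact hcard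
  have hU0 : 0 ≤ ∑ E ∈ Finset.powersetCard 3 A, sing E := Finset.sum_nonneg fun E _ => sing_nonneg E
  constructor
  · have h3 := h1 x hx1 B hBd hcard'
    have h4 : ∑ t ∈ triples B, (primeTriples x (t.2.2 - t.2.1) (t.2.2 - t.1) : ℝ) =
        ∑ E ∈ (Finset.powersetCard 3 A).filter (fun E => sing E ≠ 0), (pcn x E : ℝ) := by
      rw [hB]
      refine ARB_tri u A hA1 _ _ fun a b c ha hab hbc => ?_
      simp only
      rw [hdif b c (by omega) hbc, hdif a c ha (by omega), ARB_pcn3 hx0.le hab hbc]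
    rw [h4] at h3
    have h5 : ∑ t ∈ triples B, singularSeries (t.2.2 - t.2.1) (t.2.2 - t.1) * x / (Real.log x) ^ 3 =
        (∑ E ∈ Finset.powersetCard 3 A, sing E) * x / (Real.log x) ^ 3 := by
      rw [← hS, Finset.sum_mul, Finset.sum_div]
    rw [h5] at h3
    have h6 : ∑ E ∈ (Finset.powersetCard 3 A).filter (fun E => sing E ≠ 0), (pcn x E : ℝ) ≤
        ∑ E ∈ Finset.powersetCard 3 A, (pcn x E : ℝ) :=
      Finset.sum_le_sum_of_subset_of_nonneg (Finset.filter_subset _ _) fun _ _ _ => Nat.cast_nonneg _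
    have h7 : ∑ E ∈ Finset.powersetCard 3 A, (Real.log x) ^ 3 * (pcn x E : ℝ) / x =
        (Real.log x) ^ 3 / x * ∑ E ∈ Finset.powersetCard 3 A, (pcn x E : ℝ) := by
      rw [Finset.mul_sum]
      exact Finset.sum_congr rfl fun E _ => by ring
    rw [h7]
    calc min c1 c2 * ∑ E ∈ Finset.powersetCard 3 A, sing E ≤ c1 * ∑ E ∈ Finset.powersetCard 3 A, sing E :=
          mul_le_mul_of_nonneg_right (min_le_left _ _) hU0
      _ = (Real.log x) ^ 3 / x * (c1 * ((∑ E ∈ Finset.powersetCard 3 A, sing E) * x / (Real.log x) ^ 3)) := by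
          field_simp
      _ ≤ _ := mul_le_mul_of_nonneg_left (h3.trans h6) (by positivity)
  · have h3 := h2 x hx2 B hBd hcard'
    rw [hS] at h3
    have h4 : ∑ t ∈ (triples B).filter (fun t => c2 * (singularSeries (t.2.2 - t.2.1) (t.2.2 - t.1) * x / (Real.log x) ^ 3)
        ≤ (primeTriples x (t.2.2 - t.2.1) (t.2.2 - t.1) : ℝ)), singularSeries (t.2.2 - t.2.1) (t.2.2 - t.1) =
        ∑ E ∈ (Finset.powersetCard 3 A).filter (fun E => sing E ≠ 0),
          if c2 * (sing E * x / (Real.log x) ^ 3) ≤ (pcn x E : ℝ) then sing E else 0 := by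
      rw [Finset.sum_filter, hB]
      refine ARB_tri u A hA1 _ _ fun a b c ha hab hbc => ?_
      simp only
      rw [hdif b c (by omega) hbc, hdif a c ha (by omega), ARB_pcn3 hx0.le hab hbc, ARB_sing3 hab hbc]
    rw [h4] at h3
    calc min c1 c2 * ∑ E ∈ Finset.powersetCard 3 A, sing E ≤ c2 * ∑ E ∈ Finset.powersetCard 3 A, sing E :=
          mul_le_mul_of_nonneg_right (min_le_right _ _) hU0
      _ ≤ _ := h3
      _ ≤ ∑ E ∈ Finset.powersetCard 3 A, if c2 * (sing E * x / (Real.log x) ^ 3) ≤ (pcn x E : ℝ) then sing E else 0 := by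
          refine Finset.sum_le_sum_of_subset_of_nonneg (Finset.filter_subset _ _) fun E _ _ => ?_
          split_ifs
          · exact sing_nonneg E
          · exact le_rfl
      _ ≤ _ := by
          rw [Finset.sum_filter]
          refine Finset.sum_le_sum fun E _ => ?_
          have h5 : min c1 c2 * (sing E * x / (Real.log x) ^ 3) ≤ c2 * (sing E * x / (Real.log x) ^ 3) :=
            mul_le_mul_of_nonneg_right (min_le_right _ _) (div_nonneg (mul_nonneg (sing_nonneg E) hx0.le) hL3.le)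
          split_ifs with h6 h7 h7
          · exact le_rfl
          · exact absurd (h5.trans h6) h7
          · exact sing_nonneg E
          · exact le_rfl

end Pool.Agent.H6.AS
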