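import Pool.Agent.H6.AS.LOW
import Pool.Agent.H96.AS.TS

/-!
# FIN: almost all `k`-subsets of an arbitrary set of `≥ K log x` shifts

`FINlow`: the lower bound for the mean of the counts (from `LOW`, `TS_cnt`, `PW_sing`). `FIN`: the upper bound for almost all (`TSu`)
and the mass of the `C` with `R ≥ 1 - h`.
-/

set_option autoImplicit false

namespace Pool.Agent.H6.AS

open Finset Pool.Agent.H17 Pool.Agent.H6.MF Pool.Agent.H6.MB Pool.Agent.H12.DM Pool.Agent.H96.AS Pool.Agent.H6.AE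

open Filter in
lemma FIN_ev (n : ℕ) (e : ℝ) (he : 0 < e) : ∃ X : ℝ, ∀ x : ℝ, X ≤ x →
    Real.exp 1 ≤ x ∧ (Real.log x) ^ n * x ^ (1 / 2 : ℝ) ≤ e * x := by
  have h1 : (fun x : ℝ => (Real.log x) ^ n) =o[atTop] (fun x : ℝ => x ^ (1 / 2 : ℝ)) := by
    have h := isLittleO_log_rpow_rpow_atTop (n : ℝ) (by norm_num : (0 : ℝ) < 1 / 2)
    refine h.congr_left fun x => ?_
    rw [Real.rpow_natCast]
  have h2 := h1.bound he
  obtain ⟨X, hX⟩ := Filter.eventually_atTop.1 (h2.and (eventually_ge_atTop (Real.exp 1)))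
  refine ⟨X, fun x hx => ?_⟩
  obtain ⟨h3, h4⟩ := hX x hx
  have hx0 : 0 < x := (Real.exp_pos 1).trans_le h4
  have hL : 1 ≤ Real.log x := (Real.le_log_iff_exp_le hx0).2 h4
  refine ⟨h4, ?_⟩
  rw [Real.norm_of_nonneg (by positivity), Real.norm_of_nonneg (by positivity)] at h3
  calc (Real.log x) ^ n * x ^ (1 / 2 : ℝ) ≤ (e * x ^ (1 / 2 : ℝ)) * x ^ (1 / 2 : ℝ) :=
        mul_le_mul_of_nonneg_right h3 (by positivity)
    _ = e * x := by
        rw [mul_assoc, ← Real.rpow_add hx0]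
        norm_num

theorem FINlow (j : ℕ) (ε : ℝ) (hε : 0 < ε) : ∃ K X : ℝ, 1 ≤ K ∧ ∀ x : ℝ, X ≤ x → ∀ H : ℕ,
    (H : ℝ) ≤ (Real.log x) ^ 2 → ∀ A : Finset ℤ, A ⊆ Finset.Icc 1 (H : ℤ) → K * Real.log x ≤ (A.card : ℝ) →
    (1 - ε) * ∑ C ∈ Finset.powersetCard (j + 1) A, sing C ≤
      ∑ C ∈ Finset.powersetCard (j + 1) A, (Real.log x) ^ (j + 1) * (cnt x C : ℝ) / x := by
  obtain ⟨e, he⟩ : ∃ e, e = min ε 1 / 4 := ⟨_, rfl⟩
  have he0 : 0 < e := by rw [he]; positivity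
  have he1 : 4 * e ≤ 1 := by rw [he]; have := min_le_right ε 1; linarith
  have heε : 4 * e ≤ ε := by rw [he]; have := min_le_left ε 1; linarith
  obtain ⟨K, X1, _, hX1⟩ := LOW j e he0
  obtain ⟨X2, hX2⟩ := TS_cnt (j + 1)
  obtain ⟨X3, hX3⟩ := TS_size j
  obtain ⟨X4, hX4⟩ := PW_sing (j + 1) e he0
  obtain ⟨X5, hX5⟩ := FIN_ev (2 * (j + 1)) e he0
  refine ⟨max K 1, max (max X1 X2) (max X3 (max X4 X5)), le_max_right _ _, fun x hx H hH A hA hKA => ?_⟩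
  simp only [max_le_iff] at hx
  obtain ⟨⟨hx1, hx2⟩, hx3, hx4, hx5⟩ := hx
  obtain ⟨hxe, hpow⟩ := hX5 x hx5
  have hx0 : 0 < x := (Real.exp_pos 1).trans_le hxe
  have hL : 1 ≤ Real.log x := (Real.le_log_iff_exp_le hx0).2 hxe
  have hKA1 : K * Real.log x ≤ (A.card : ℝ) := (mul_le_mul_of_nonneg_right (le_max_left _ _) (by linarith)).trans hKA
  have hKA2 : Real.log x ≤ (A.card : ℝ) := by
    refine le_trans ?_ hKA
    have := mul_le_mul_of_nonneg_right (le_max_right K 1) (by linarith : (0 : ℝ) ≤ Real.log x)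
    linarith
  have hlow := hX1 x hx1 H hH A hA hKA1
  have hsize := hX3 x hx3 A hKA2
  obtain ⟨P, hP⟩ : ∃ P, P = Finset.powersetCard (j + 1) A := ⟨_, rfl⟩
  rw [← hP] at hlow hsize ⊢
  obtain ⟨S, hS⟩ : ∃ S, S = ∑ C ∈ P, sW x C := ⟨_, rfl⟩
  rw [← hS] at hlow hsize
  have hPc : ∀ C ∈ P, C ⊆ A ∧ C.card = j + 1 := fun C hC => by
    rw [hP, Finset.mem_powersetCard] at hC
    exact hC
  -- counts
  have hcnt : ∑ C ∈ P, ∑ n ∈ JJ x H, ∏ c ∈ C, La x ((n : ℤ) - c) ≤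
      x * (∑ C ∈ P, (Real.log x) ^ (j + 1) * (cnt x C : ℝ) / x) + e * x := by
    have h1 : ∀ C ∈ P, ∑ n ∈ JJ x H, ∏ c ∈ C, La x ((n : ℤ) - c) ≤
        (Real.log x) ^ (j + 1) * (cnt x C : ℝ) + x ^ (1 / 2 : ℝ) := by
      intro C hC
      obtain ⟨hC1, hC2⟩ := hPc C hC
      have h2 := hX2 x hx2 H hH C (hC1.trans hA) (by omega) (by omega)
      rw [hC2, abs_le] at h2
      linarith [h2.1]
    refine (Finset.sum_le_sum h1).trans ?_
    rw [Finset.sum_add_distrib, Finset.mul_sum]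
    refine add_le_add (Finset.sum_le_sum fun C _ => ?_) ?_
    · rw [mul_div_cancel₀ _ hx0.ne']
    · rw [Finset.sum_const, nsmul_eq_mul]
      refine le_trans (mul_le_mul_of_nonneg_right ?_ (by positivity)) hpow
      have h3 : P.card ≤ A.card ^ (j + 1) := by
        rw [hP, Finset.card_powersetCard]
        exact Nat.choose_le_pow _ _
      have h4 : A.card ≤ H := by
        have := Finset.card_le_card hA
        rwa [Int.card_Icc, show ((H : ℤ) + 1 - 1).toNat = H by omega] at this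
      have h5 : (A.card : ℝ) ≤ (Real.log x) ^ 2 := le_trans (by exact_mod_cast h4) hH
      calc (P.card : ℝ) ≤ (A.card : ℝ) ^ (j + 1) := by exact_mod_cast h3
        _ ≤ ((Real.log x) ^ 2) ^ (j + 1) := pow_le_pow_left₀ (Nat.cast_nonneg _) h5 _
        _ = (Real.log x) ^ (2 * (j + 1)) := by rw [← pow_mul]
  -- singular series
  have hsing : ∑ C ∈ P, sing C ≤ (1 + e) * S := by
    rw [hS, Finset.mul_sum]
    refine Finset.sum_le_sum fun C hC => ?_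
    obtain ⟨hC1, hC2⟩ := hPc C hC
    refine (hX4 x hx4 C (by omega) (by omega) ?_).2
    intro a ha a' ha'
    have h1 := Finset.mem_Icc.1 (hA (hC1 ha))
    have h2 := Finset.mem_Icc.1 (hA (hC1 ha'))
    have h3 : |((a - a' : ℤ) : ℝ)| ≤ (H : ℝ) := by
      have : |a - a'| ≤ (H : ℤ) := by rw [abs_le]; constructor <;> omega
      calc |((a - a' : ℤ) : ℝ)| = ((|a - a'| : ℤ) : ℝ) := by push_cast; rfl
        _ ≤ ((H : ℤ) : ℝ) := by exact_mod_cast this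
        _ = (H : ℝ) := by push_cast; rfl
    have h4 : 0 ≤ (Real.log x) ^ 2 := by positivity
    linarith
  obtain ⟨R, hR⟩ : ∃ R, R = ∑ C ∈ P, (Real.log x) ^ (j + 1) * (cnt x C : ℝ) / x := ⟨_, rfl⟩
  rw [← hR] at hcnt ⊢
  have hN : x ≤ (⌊x⌋₊ : ℝ) + 1 := (Nat.lt_floor_add_one x).le
  have h1 : (1 - e) * (x * S) ≤ x * R + e * x := by
    refine le_trans ?_ (hlow.trans hcnt)
    refine mul_le_mul_of_nonneg_left (mul_le_mul_of_nonneg_right hN (by linarith)) (by linarith)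
  have h2 : (1 - 2 * e) * S ≤ R := by
    have h3 : x * ((1 - e) * S) ≤ x * (R + e) := by linarith
    have h4 := le_of_mul_le_mul_left h3 hx0
    nlinarith
  have hU0 : 0 ≤ ∑ C ∈ P, sing C := Finset.sum_nonneg fun C _ => sing_nonneg C
  calc (1 - ε) * ∑ C ∈ P, sing C ≤ (1 - 4 * e) * ∑ C ∈ P, sing C := mul_le_mul_of_nonneg_right (by linarith) hU0
    _ ≤ (1 - 4 * e) * ((1 + e) * S) := mul_le_mul_of_nonneg_left hsing (by linarith)
    _ ≤ (1 - 2 * e) * S := by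
        rw [← mul_assoc]
        exact mul_le_mul_of_nonneg_right (by nlinarith) (by linarith)
    _ ≤ R := h2

/-- almost all subsets of an arbitrary set of shifts; the mass of the subsets with `R ≥ 1 - h` -/
theorem FIN (j : ℕ) (hj : 1 ≤ j) (ε : ℝ) (hε : 0 < ε) : ∃ K X : ℝ, 1 ≤ K ∧ ∀ x : ℝ, X ≤ x → ∀ H : ℕ,
    (H : ℝ) ≤ (Real.log x) ^ 2 → ∀ A : Finset ℤ, A ⊆ Finset.Icc 1 (H : ℤ) → K * Real.log x ≤ (A.card : ℝ) →
    ∑ C ∈ Finset.powersetCard (j + 1) A, max 0 ((Real.log x) ^ (j + 1) * (cnt x C : ℝ) / x - 4 ^ j * sing C) ≤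
      ε * ∑ C ∈ Finset.powersetCard (j + 1) A, sing C ∧
    ∀ h : ℝ, 0 ≤ h → h ≤ 1 →
      (h - ε) * ∑ C ∈ Finset.powersetCard (j + 1) A, sing C ≤ (4 ^ j - (1 - h)) *
        ∑ C ∈ (Finset.powersetCard (j + 1) A).filter (fun C =>
          (1 - h) * (sing C * x / (Real.log x) ^ (j + 1)) ≤ (cnt x C : ℝ)), sing C := by
  obtain ⟨K1, X1, hK1, hX1⟩ := TSu j hj (ε / 2) (by positivity)
  obtain ⟨K2, X2, hK2, hX2⟩ := FINlow j (ε / 2) (by positivity)
  refine ⟨max K1 K2, max (max X1 X2) (Real.exp 1), hK1.trans (le_max_left _ _), fun x hx H hH A hA hKA => ?_⟩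
  simp only [max_le_iff] at hx
  obtain ⟨⟨hx1, hx2⟩, hxe⟩ := hx
  have hx0 : 0 < x := (Real.exp_pos 1).trans_le hxe
  have hL : 1 ≤ Real.log x := (Real.le_log_iff_exp_le hx0).2 hxe
  have h1 := hX1 x hx1 H hH A hA ((mul_le_mul_of_nonneg_right (le_max_left _ _) (by linarith)).trans hKA)
  have h2 := hX2 x hx2 H hH A hA ((mul_le_mul_of_nonneg_right (le_max_right _ _) (by linarith)).trans hKA)
  obtain ⟨P, hP⟩ : ∃ P, P = Finset.powersetCard (j + 1) A := ⟨_, rfl⟩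
  rw [← hP] at h1 h2 ⊢
  have hU0 : 0 ≤ ∑ C ∈ P, sing C := Finset.sum_nonneg fun C _ => sing_nonneg C
  refine ⟨by nlinarith, fun h hh0 hh1 => ?_⟩
  obtain ⟨G, hG⟩ : ∃ G, G = P.filter (fun C => (1 - h) * (sing C * x / (Real.log x) ^ (j + 1)) ≤ (cnt x C : ℝ)) := ⟨_, rfl⟩
  obtain ⟨B, hB⟩ : ∃ B, B = P.filter (fun C => ¬ (1 - h) * (sing C * x / (Real.log x) ^ (j + 1)) ≤ (cnt x C : ℝ)) := ⟨_, rfl⟩
  have hsplit : ∑ C ∈ G, sing C + ∑ C ∈ B, sing C = ∑ C ∈ P, sing C := by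
    rw [hG, hB]
    exact Finset.sum_filter_add_sum_filter_not P _ sing
  have hsplitR : ∑ C ∈ G, (Real.log x) ^ (j + 1) * (cnt x C : ℝ) / x + ∑ C ∈ B, (Real.log x) ^ (j + 1) * (cnt x C : ℝ) / x =
      ∑ C ∈ P, (Real.log x) ^ (j + 1) * (cnt x C : ℝ) / x := by
    rw [hG, hB]
    exact Finset.sum_filter_add_sum_filter_not P _ (fun C => (Real.log x) ^ (j + 1) * (cnt x C : ℝ) / x)
  rw [← hG]
  have hLp : 0 < (Real.log x) ^ (j + 1) := by positivity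
  have hbad : ∑ C ∈ B, (Real.log x) ^ (j + 1) * (cnt x C : ℝ) / x ≤ (1 - h) * ∑ C ∈ B, sing C := by
    rw [Finset.mul_sum]
    refine Finset.sum_le_sum fun C hC => ?_
    rw [hB, Finset.mem_filter] at hC
    have h3 := (not_le.1 hC.2).le
    rw [div_le_iff₀ hx0]
    calc (Real.log x) ^ (j + 1) * (cnt x C : ℝ) ≤
        (Real.log x) ^ (j + 1) * ((1 - h) * (sing C * x / (Real.log x) ^ (j + 1))) :=
          mul_le_mul_of_nonneg_left h3 hLp.le
      _ = (1 - h) * sing C * x := by field_simp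
  have hGP : G ⊆ P := by rw [hG]; exact Finset.filter_subset _ _
  have hgood : ∑ C ∈ G, (Real.log x) ^ (j + 1) * (cnt x C : ℝ) / x ≤
      4 ^ j * ∑ C ∈ G, sing C + (ε / 2) * ∑ C ∈ P, sing C := by
    have h3 : ∑ C ∈ G, max 0 ((Real.log x) ^ (j + 1) * (cnt x C : ℝ) / x - 4 ^ j * sing C) ≤
        (ε / 2) * ∑ C ∈ P, sing C :=
      le_trans (Finset.sum_le_sum_of_subset_of_nonneg hGP fun _ _ _ => le_max_left _ _) h1
    have h4 : ∑ C ∈ G, (Real.log x) ^ (j + 1) * (cnt x C : ℝ) / x ≤ 4 ^ j * ∑ C ∈ G, sing C +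
        ∑ C ∈ G, max 0 ((Real.log x) ^ (j + 1) * (cnt x C : ℝ) / x - 4 ^ j * sing C) := by
      rw [Finset.mul_sum, ← Finset.sum_add_distrib]
      refine Finset.sum_le_sum fun C _ => ?_
      have := le_max_right 0 ((Real.log x) ^ (j + 1) * (cnt x C : ℝ) / x - 4 ^ j * sing C)
      linarith
    linarith
  rw [← hsplitR] at h2
  rw [← hsplit] at h2 hgood ⊢
  nlinarith

end Pool.Agent.H6.AS
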