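import Pool.Agent.H6.AS.ARB
import Pool.Agent.H96.FD.FNb

/-!
# FNd: for any two shifts all but `K log x` of the third ones satisfy `R ≤ 16 + ε` (window form)

From `FN_max` at `x' = exp √(L² + 1)`: `log² x' = L² + 1`, `x + L² + 1 ≤ x' ≤ (1 + κ) x`.
-/

set_option autoImplicit false

namespace Pool.Agent.H6.AS

open Finset Pool.Agent.H17 Pool.Agent.H6.MF Pool.Agent.H6.MB Pool.Agent.H12.DM Pool.Agent.H96.AS Pool.Agent.H6.AE

lemma PCN2 {x x' : ℝ} (c : ℤ) (E : Finset ℤ) (e₀ : ℤ) (he₀ : e₀ ∈ E) (hM : x + ((c - e₀ : ℤ) : ℝ) ≤ x')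
    (hc : ∀ e ∈ E, e ≤ c) : pcn x E ≤ cnt x' (rf c E) := by
  classical
  have hpos : ∀ m : ℤ, isP m → 0 < m := by
    intro m hm
    by_contra hcon
    unfold isP at hm
    rw [Int.toNat_of_nonpos (not_lt.1 hcon)] at hm
    exact Nat.not_prime_zero hm
  obtain ⟨T, hT⟩ : ∃ T, T = (Finset.range (⌊x'⌋₊ + 1)).filter (fun n : ℕ => ∀ h ∈ rf c E, isP ((n : ℤ) - h)) := ⟨_, rfl⟩
  have hcnt : cnt x' (rf c E) = T.card := by
    rw [hT]
    rfl
  have hsub : {m : ℤ | ∀ e ∈ E, isP (m + e) ∧ ((m + e : ℤ) : ℝ) ≤ x} ⊆ ((T.image (fun n : ℕ => (n : ℤ) - c) : Finset ℤ) : Set ℤ) := by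
    intro m h
    rw [Finset.mem_coe, Finset.mem_image]
    have h1 := h e₀ he₀
    have h2 := hpos _ h1.1
    have h3 := hc e₀ he₀
    have h4 : (((m + c).toNat : ℕ) : ℤ) = m + c := Int.toNat_of_nonneg (by omega)
    refine ⟨(m + c).toNat, ?_, by rw [h4]; ring⟩
    rw [hT, Finset.mem_filter, Finset.mem_range]
    refine ⟨?_, ?_⟩
    · have h5 : (m + c).toNat ≤ ⌊x'⌋₊ := by
        refine Nat.le_floor ?_
        have h7 : (((m + c).toNat : ℕ) : ℝ) = ((m + c : ℤ) : ℝ) := by exact_mod_cast congrArg (Int.cast : ℤ → ℝ) h4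
        rw [h7]
        have h8 := h1.2
        push_cast at h8 hM ⊢
        linarith
      omega
    · intro b hb
      have h9 := (h (c - b) (mem_rf.1 hb)).1
      rw [h4]
      rwa [show m + (c - b) = m + c - b by ring] at h9
  rw [hcnt]
  unfold pcn
  calc Set.ncard {m : ℤ | ∀ e ∈ E, isP (m + e) ∧ ((m + e : ℤ) : ℝ) ≤ x} ≤
      Set.ncard ((T.image (fun n : ℕ => (n : ℤ) - c) : Finset ℤ) : Set ℤ) :=
        Set.ncard_le_ncard hsub (Finset.finite_toSet _)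
    _ = (T.image (fun n : ℕ => (n : ℤ) - c)).card := Set.ncard_coe_finset _
    _ ≤ T.card := Finset.card_image_le

open Filter in
lemma FNd_ev (κ : ℝ) (hκ : 0 < κ) : ∃ X : ℝ, ∀ x : ℝ, X ≤ x → 1 ≤ Real.log x ∧ 0 < x ∧
    3 * Real.log x * ((Real.log x) ^ 2 + 1) ≤ x ∧ Real.exp (1 / (2 * Real.log x)) ≤ 1 + κ := by
  have h1 : Tendsto (fun x : ℝ => Real.exp (1 / (2 * Real.log x))) atTop (nhds 1) := by
    have h2 : Tendsto (fun x : ℝ => 1 / (2 * Real.log x)) atTop (nhds 0) := by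
      apply Tendsto.div_atTop tendsto_const_nhds
      exact Real.tendsto_log_atTop.const_mul_atTop (by norm_num)
    have h3 := (Real.continuous_exp.tendsto 0).comp h2
    rwa [Real.exp_zero] at h3
  have h4 := h1.eventually (ge_mem_nhds (by linarith : (1 : ℝ) < 1 + κ))
  obtain ⟨X1, hX1⟩ := FIN_ev 3 (1 / 6) (by norm_num)
  obtain ⟨X, hX⟩ := Filter.eventually_atTop.1 (h4.and ((eventually_ge_atTop X1).and
    (Real.tendsto_log_atTop.eventually_ge_atTop 1)))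
  refine ⟨X, fun x hx => ?_⟩
  obtain ⟨h5, h6, h7⟩ := hX x hx
  obtain ⟨h8, h9⟩ := hX1 x h6
  have hx0 : 0 < x := (Real.exp_pos 1).trans_le h8
  have hx1 : 1 ≤ x := by
    have := Real.add_one_le_exp (1 : ℝ)
    linarith
  refine ⟨h7, hx0, ?_, h5⟩
  have h10 : (1 : ℝ) ≤ x ^ (1 / 2 : ℝ) := Real.one_le_rpow hx1 (by norm_num)
  have h11 : (Real.log x) ^ 3 ≤ (Real.log x) ^ 3 * x ^ (1 / 2 : ℝ) := le_mul_of_one_le_right (by positivity) h10
  have h12 : (Real.log x) ^ 2 + 1 ≤ 2 * (Real.log x) ^ 2 := by nlinarith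
  have h13 : 3 * Real.log x * ((Real.log x) ^ 2 + 1) ≤ 3 * Real.log x * (2 * (Real.log x) ^ 2) :=
    mul_le_mul_of_nonneg_left h12 (by linarith)
  have h14 : 3 * Real.log x * (2 * (Real.log x) ^ 2) = 6 * (Real.log x) ^ 3 := by ring
  linarith

theorem FN_win (ε : ℝ) (hε : 0 < ε) : ∃ K X : ℝ, ∀ x : ℝ, X ≤ x → ∀ u a b : ℤ, u ≤ a → (a : ℝ) ≤ u + (Real.log x) ^ 2 →
    u ≤ b → (b : ℝ) ≤ u + (Real.log x) ^ 2 → a ≠ b →
    (((Finset.Icc u (u + ⌊(Real.log x) ^ 2⌋₊)).filter (fun e : ℤ => e ≠ a ∧ e ≠ b ∧ sing {a, b, e} ≠ 0 ∧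
      (16 + ε) * (sing {a, b, e} * x / (Real.log x) ^ 3) < (pcn x {a, b, e} : ℝ))).card : ℝ) ≤ K * Real.log x := by
  classical
  obtain ⟨K, X1, hK, hX1⟩ := Pool.Agent.H96.FD.FN_max (ε / 2) (by positivity)
  obtain ⟨X2, hX2⟩ := FNd_ev (ε / (4 * (16 + ε))) (by positivity)
  refine ⟨2 * K, max X1 X2, fun x hx u a b hua hau hub hbu hab => ?_⟩
  rw [max_le_iff] at hx
  obtain ⟨hL, hx0, hxL, hexp⟩ := hX2 x hx.2
  obtain ⟨L, hLd⟩ : ∃ L, L = Real.log x := ⟨_, rfl⟩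
  rw [← hLd] at hL hxL hexp hau hbu ⊢
  have hL0 : 0 < L := by linarith
  obtain ⟨M, hM⟩ : ∃ M, M = ⌊L ^ 2⌋₊ := ⟨_, rfl⟩
  have hML : (M : ℝ) ≤ L ^ 2 := by rw [hM]; exact Nat.floor_le (by positivity)
  rw [← hM]
  -- the larger `x'`
  obtain ⟨L', hL'⟩ : ∃ L', L' = Real.sqrt (L ^ 2 + 1) := ⟨_, rfl⟩
  have hL'0 : 0 ≤ L' := by rw [hL']; exact Real.sqrt_nonneg _
  have hL'2 : L' ^ 2 = L ^ 2 + 1 := by rw [hL']; exact Real.sq_sqrt (by positivity)
  have hLL' : L ≤ L' := by nlinarith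
  have hlo : L + 1 / (3 * L) ≤ L' := by
    have h1 : (L + 1 / (3 * L)) ^ 2 ≤ L' ^ 2 := by
      rw [hL'2]
      have h2 : (L + 1 / (3 * L)) ^ 2 = L ^ 2 + 2 / 3 + 1 / (9 * L ^ 2) := by
        field_simp
        ring
      have h3 : 1 / (9 * L ^ 2) ≤ 1 / 9 := by
        refine one_div_le_one_div_of_le (by norm_num) ?_
        nlinarith
      rw [h2]
      linarith
    exact le_of_sq_le_sq h1 hL'0
  have hup : L' ≤ L + 1 / (2 * L) := by
    have h1 : L' ^ 2 ≤ (L + 1 / (2 * L)) ^ 2 := by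
      rw [hL'2]
      have h2 : (L + 1 / (2 * L)) ^ 2 = L ^ 2 + 1 + 1 / (4 * L ^ 2) := by
        field_simp
        ring
      have h3 : 0 ≤ 1 / (4 * L ^ 2) := by positivity
      rw [h2]
      linarith
    exact le_of_sq_le_sq h1 (by positivity)
  obtain ⟨x', hx'⟩ : ∃ x', x' = Real.exp L' := ⟨_, rfl⟩
  have hlogx' : Real.log x' = L' := by rw [hx', Real.log_exp]
  have hxexp : x = Real.exp L := by rw [hLd, Real.exp_log hx0]
  have hx'0 : 0 < x' := by rw [hx']; exact Real.exp_pos _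
  have hxx1 : x + (L ^ 2 + 1) ≤ x' := by
    have h1 : x * (1 + 1 / (3 * L)) ≤ x' := by
      have h2 : 1 + 1 / (3 * L) ≤ Real.exp (1 / (3 * L)) := by
        have := Real.add_one_le_exp (1 / (3 * L))
        linarith
      calc x * (1 + 1 / (3 * L)) ≤ x * Real.exp (1 / (3 * L)) := mul_le_mul_of_nonneg_left h2 hx0.le
        _ = Real.exp (L + 1 / (3 * L)) := by rw [Real.exp_add, ← hxexp]
        _ ≤ x' := by rw [hx']; exact Real.exp_le_exp.2 hlo
    have h3 : L ^ 2 + 1 ≤ x * (1 / (3 * L)) := by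
      rw [mul_one_div, le_div_iff₀ (by positivity)]
      linarith
    linarith
  have hxx2 : x' ≤ x * (1 + ε / (4 * (16 + ε))) := by
    calc x' = Real.exp L' := hx'
      _ ≤ Real.exp (L + 1 / (2 * L)) := Real.exp_le_exp.2 hup
      _ = x * Real.exp (1 / (2 * L)) := by rw [Real.exp_add, ← hxexp]
      _ ≤ _ := mul_le_mul_of_nonneg_left hexp hx0.le
  have hxx' : x ≤ x' := by nlinarith
  obtain ⟨Bad, hBad⟩ : ∃ Bad, Bad = (Finset.Icc u (u + (M : ℤ))).filter (fun e : ℤ => e ≠ a ∧ e ≠ b ∧ sing {a, b, e} ≠ 0 ∧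
      (16 + ε) * (sing {a, b, e} * x / L ^ 3) < (pcn x {a, b, e} : ℝ)) := ⟨_, rfl⟩
  rw [← hBad]
  by_contra hcon
  rw [not_le] at hcon
  have hmemB : ∀ e ∈ Bad, (u ≤ e ∧ e ≤ u + M) ∧ e ≠ a ∧ e ≠ b ∧ sing {a, b, e} ≠ 0 ∧
      (16 + ε) * (sing {a, b, e} * x / L ^ 3) < (pcn x {a, b, e} : ℝ) := by
    intro e he
    rw [hBad, Finset.mem_filter, Finset.mem_Icc] at he
    exact he
  have hfl : ∀ z : ℤ, u ≤ z → (z : ℝ) ≤ u + L ^ 2 → z ≤ u + M := by
    intro z h1 h2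
    have h3 : (((z - u).toNat : ℕ) : ℤ) = z - u := Int.toNat_of_nonneg (by omega)
    have h4 : (((z - u).toNat : ℕ) : ℝ) = ((z - u : ℤ) : ℝ) := by exact_mod_cast congrArg (Int.cast : ℤ → ℝ) h3
    have h5 : (z - u).toNat ≤ M := by
      rw [hM]
      refine Nat.le_floor ?_
      rw [h4]
      push_cast
      linarith
    omega
  have haM := hfl a hua hau
  have hbM := hfl b hub hbu
  obtain ⟨c, hc⟩ : ∃ c, c = u + M + 1 := ⟨_, rfl⟩
  obtain ⟨D, hD⟩ : ∃ D, D = rf c Bad := ⟨_, rfl⟩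
  have hDc : D.card = Bad.card := by rw [hD, card_rf]
  have hset : ∀ e : ℤ, rf c {a, b, e} = {c - a, c - b, c - e} := by
    intro e
    unfold rf
    simp [Finset.image_insert]
  have hDmem : ∀ e' ∈ D, c - e' ∈ Bad := fun e' he' => by
    rw [hD, mem_rf] at he'
    exact he'
  have hH : (((M + 1 : ℕ) : ℝ)) ≤ (Real.log x') ^ 2 := by
    rw [hlogx', hL'2]
    push_cast
    linarith
  have hKD : K * Real.log x' ≤ (D.card : ℝ) := by
    rw [hlogx', hDc]
    have h1 : L' ≤ 2 * L := by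
      have h2 : L' ^ 2 ≤ (2 * L) ^ 2 := by rw [hL'2]; nlinarith
      exact le_of_sq_le_sq h2 (by positivity)
    have h3 : K * L' ≤ K * (2 * L) := mul_le_mul_of_nonneg_left h1 (by linarith)
    have h4 : K * (2 * L) = 2 * K * L := by ring
    linarith
  have hmain := hX1 x' (hx.1.trans hxx') (M + 1) hH (c - a) (by
    rw [Finset.mem_Icc]; push_cast; omega) (c - b) (by rw [Finset.mem_Icc]; push_cast; omega) (by omega) D (by
      intro e' he'
      obtain ⟨h1, h2, h3, _⟩ := hmemB _ (hDmem e' he')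
      rw [Finset.mem_sdiff, Finset.mem_Icc, Finset.mem_insert, Finset.mem_singleton]
      push_cast
      omega) hKD (by
      intro e' he'
      obtain ⟨_, _, _, h4, _⟩ := hmemB _ (hDmem e' he')
      rw [← sing_rf c, hset, show c - (c - e') = e' by ring] at h4
      exact h4)
  have hpt : ∀ e' ∈ D, 3 / 4 * ε * sing {c - a, c - b, e'} ≤
      max 0 ((Real.log x') ^ 3 * (cnt x' {c - a, c - b, e'} : ℝ) / x' - 16 * sing {c - a, c - b, e'}) := by
    intro e' he'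
    obtain ⟨h1, h2, h3, h4, h5⟩ := hmemB _ (hDmem e' he')
    have h6 : rf c {a, b, c - e'} = {c - a, c - b, e'} := by rw [hset, show c - (c - e') = e' by ring]
    have h7 := PCN2 (x := x) (x' := x') c {a, b, c - e'} a (by simp) (by
      have h8 : ((c - a : ℤ) : ℝ) ≤ (M : ℝ) + 1 := by
        have h9 : c - a ≤ (M : ℤ) + 1 := by omega
        calc ((c - a : ℤ) : ℝ) ≤ (((M : ℤ) + 1 : ℤ) : ℝ) := by exact_mod_cast h9
          _ = (M : ℝ) + 1 := by push_cast; rfl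
      linarith) (by
      intro e he
      simp only [Finset.mem_insert, Finset.mem_singleton] at he
      rcases he with rfl | rfl | rfl <;> omega)
    rw [h6] at h7
    have h10 : sing {a, b, c - e'} = sing {c - a, c - b, e'} := by rw [← sing_rf c, h6]
    rw [h10] at h5
    have hs0 := sing_nonneg ({c - a, c - b, e'} : Finset ℤ)
    obtain ⟨s, hs⟩ : ∃ s, s = sing {c - a, c - b, e'} := ⟨_, rfl⟩
    rw [← hs] at h5 hs0 ⊢
    have h11 : (16 + ε) * (s * x / L ^ 3) ≤ (cnt x' {c - a, c - b, e'} : ℝ) := h5.le.trans (by exact_mod_cast h7)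
    refine le_trans ?_ (le_max_right _ _)
    have h12 : (16 + 3 / 4 * ε) * s ≤ (Real.log x') ^ 3 * (cnt x' {c - a, c - b, e'} : ℝ) / x' := by
      rw [le_div_iff₀ hx'0, hlogx']
      have hLp : 0 < L ^ 3 := by positivity
      have h13 : L ^ 3 ≤ L' ^ 3 := pow_le_pow_left₀ hL0.le hLL' 3
      have h14 : (16 + 3 / 4 * ε) * (1 + ε / (4 * (16 + ε))) ≤ 16 + ε := by
        have h15 : (16 + 3 / 4 * ε) * (ε / (4 * (16 + ε))) ≤ ε / 4 := by
          rw [mul_div_assoc', div_le_iff₀ (by positivity)]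
          nlinarith
        have h16 : (16 + 3 / 4 * ε) * (1 + ε / (4 * (16 + ε))) = 16 + 3 / 4 * ε + (16 + 3 / 4 * ε) * (ε / (4 * (16 + ε))) := by
          ring
        linarith
      calc (16 + 3 / 4 * ε) * s * x' ≤ (16 + 3 / 4 * ε) * s * (x * (1 + ε / (4 * (16 + ε)))) :=
            mul_le_mul_of_nonneg_left hxx2 (by positivity)
        _ = ((16 + 3 / 4 * ε) * (1 + ε / (4 * (16 + ε)))) * (s * x) := by ring
        _ ≤ (16 + ε) * (s * x) := mul_le_mul_of_nonneg_right h14 (by positivity)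
        _ = L ^ 3 * ((16 + ε) * (s * x / L ^ 3)) := by field_simp
        _ ≤ L ^ 3 * (cnt x' {c - a, c - b, e'} : ℝ) := mul_le_mul_of_nonneg_left h11 hLp.le
        _ ≤ L' ^ 3 * (cnt x' {c - a, c - b, e'} : ℝ) := mul_le_mul_of_nonneg_right h13 (Nat.cast_nonneg _)
    linarith
  have hsum := (Finset.sum_le_sum hpt).trans hmain
  rw [← Finset.mul_sum] at hsum
  have hpos : 0 < ∑ e' ∈ D, sing {c - a, c - b, e'} := by
    refine Finset.sum_pos (fun e' he' => ?_) ?_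
    · obtain ⟨_, _, _, h4, _⟩ := hmemB _ (hDmem e' he')
      rw [← sing_rf c, hset, show c - (c - e') = e' by ring] at h4
      exact lt_of_le_of_ne (sing_nonneg _) (Ne.symm h4)
    · rw [← Finset.card_pos, hDc]
      have : (0 : ℝ) < (Bad.card : ℝ) := lt_of_le_of_lt (by positivity) hcon
      exact_mod_cast this
  nlinarith

end Pool.Agent.H6.AS
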