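import Pool.Agent.H6.AS.APP
import Pool.Agent.H6.AE.T1r
import Pool.Agent.H96.AS.MOM

/-!
# LOW: the lower bound for the mean of the prime `k`-tuples over the `k`-subsets of an arbitrary set of shifts

Jensen in every class modulo `WW (yy x)`.
-/

set_option autoImplicit false

namespace Pool.Agent.H6.AS

open Finset Pool.Agent.H17 Pool.Agent.H6.MF Pool.Agent.H6.MB Pool.Agent.H12.DM Pool.Agent.H96.AS Pool.Agent.H6.AE

lemma LOW_esymm (A : Finset ℤ) (q : ℤ → Prop) [DecidablePred q] (L : ℝ) (k : ℕ) :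
    ∑ C ∈ Finset.powersetCard k A, ∏ c ∈ C, (if q c then L else 0) = L ^ k * (((A.filter q).card.choose k : ℕ) : ℝ) := by
  classical
  obtain ⟨J, hJ⟩ : ∃ J, J = A.filter q := ⟨_, rfl⟩
  rw [← hJ]
  have h3 : Finset.powersetCard k J ⊆ Finset.powersetCard k A := Finset.powersetCard_mono (by
    rw [hJ]; exact Finset.filter_subset _ _)
  rw [← Finset.sum_subset h3 (f := fun C => ∏ c ∈ C, (if q c then L else 0))]
  · have h4 : ∀ C ∈ Finset.powersetCard k J, ∏ c ∈ C, (if q c then L else 0) = L ^ k := by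
      intro C hC
      rw [Finset.mem_powersetCard] at hC
      rw [← hC.2, ← Finset.prod_const]
      refine Finset.prod_congr rfl fun c hc => ?_
      have := hC.1 hc
      rw [hJ, Finset.mem_filter] at this
      rw [if_pos this.2]
    rw [Finset.sum_congr rfl h4, Finset.sum_const, Finset.card_powersetCard, nsmul_eq_mul, mul_comm]
  · intro C hC hC'
    rw [Finset.mem_powersetCard] at hC
    have h4 : ¬ C ⊆ J := fun h => hC' (Finset.mem_powersetCard.2 ⟨h, hC.2⟩)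
    rw [Finset.not_subset] at h4
    obtain ⟨a, ha, haJ⟩ := h4
    refine Finset.prod_eq_zero ha ?_
    rw [if_neg]
    intro h
    exact haJ (by rw [hJ, Finset.mem_filter]; exact ⟨hC.1 ha, h⟩)

lemma LOW_pt (A : Finset ℤ) (q : ℤ → Prop) [DecidablePred q] {L : ℝ} (hL : 0 ≤ L) (j : ℕ) :
    (max 0 (∑ a ∈ A, (if q a then L else 0) - j * L)) ^ (j + 1) ≤
      ((j + 1).factorial : ℝ) * ∑ C ∈ Finset.powersetCard (j + 1) A, ∏ c ∈ C, (if q c then L else 0) := by
  have hf : (0 : ℝ) < ((j + 1).factorial : ℝ) := by exact_mod_cast Nat.factorial_pos _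
  rw [LOW_esymm, ← Finset.sum_filter, Finset.sum_const, nsmul_eq_mul]
  obtain ⟨p, hp⟩ : ∃ p, p = (A.filter q).card := ⟨_, rfl⟩
  rw [← hp]
  have h1 := Nat.pow_le_choose (α := ℝ) (j + 1) p
  rw [Nat.add_sub_add_right, div_le_iff₀ hf] at h1
  have h2 : max 0 ((p : ℝ) * L - j * L) ≤ L * ((p - j : ℕ) : ℝ) := by
    refine max_le (by positivity) ?_
    have h4 : p ≤ (p - j) + j := by omega
    have h5 : (p : ℝ) ≤ ((p - j : ℕ) : ℝ) + j := by exact_mod_cast h4
    nlinarith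
  calc (max 0 ((p : ℝ) * L - j * L)) ^ (j + 1) ≤ (L * ((p - j : ℕ) : ℝ)) ^ (j + 1) :=
        pow_le_pow_left₀ (le_max_left _ _) h2 _
    _ = L ^ (j + 1) * ((p - j : ℕ) : ℝ) ^ (j + 1) := mul_pow _ _ _
    _ ≤ L ^ (j + 1) * ((p.choose (j + 1) : ℝ) * ((j + 1).factorial : ℝ)) :=
        mul_le_mul_of_nonneg_left h1 (by positivity)
    _ = _ := by ring

lemma LOW_bern (j : ℕ) {u v : ℝ} (hu : 0 ≤ u) (hv : 0 ≤ v) :
    u ^ (j + 1) - (j + 1) * v * u ^ j ≤ (max 0 (u - v)) ^ (j + 1) := by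
  rcases le_total v u with h | h
  · rw [max_eq_right (by linarith)]
    have h1 := JENQ_pow j (show 0 ≤ u - v by linarith) hv
    rw [sub_add_cancel] at h1
    linarith
  · have h1 : u ^ (j + 1) - (j + 1) * v * u ^ j ≤ 0 := by
      have h2 : u ^ (j + 1) - (j + 1) * v * u ^ j = u ^ j * (u - (j + 1) * v) := by ring
      rw [h2]
      refine mul_nonpos_of_nonneg_of_nonpos (by positivity) ?_
      have h3 : (0 : ℝ) ≤ j * v := by positivity
      nlinarith
    exact h1.trans (pow_nonneg (le_max_left _ _) _)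

lemma LOW_card (x : ℝ) (H t : ℕ) :
    ((JC x H t).card : ℝ) ≤ ((⌊x⌋₊ : ℝ) + 1) / (WW (yy x) : ℝ) + 1 := by
  have hW := WW_pos (yy x)
  have h1 : (JC x H t).card ≤ (⌊x⌋₊ + 1) / WW (yy x) + 1 := by
    rw [← Finset.card_range ((⌊x⌋₊ + 1) / WW (yy x) + 1)]
    refine Finset.card_le_card_of_injOn (fun n => (n - (H + 1)) / WW (yy x)) ?_ ?_
    · intro n hn
      have hn' := Finset.mem_coe.1 hn
      unfold JC JJ at hn'
      rw [Finset.mem_filter, Finset.mem_Ico] at hn'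
      rw [Finset.mem_coe, Finset.mem_range]
      refine Nat.lt_succ_of_le (Nat.div_le_div_right ?_)
      omega
    · intro n hn m hm h
      have hn' := Finset.mem_coe.1 hn
      have hm' := Finset.mem_coe.1 hm
      unfold JC JJ at hn' hm'
      rw [Finset.mem_filter, Finset.mem_Ico] at hn' hm'
      beta_reduce at h
      have e1 := Nat.div_add_mod (n - (H + 1)) (WW (yy x))
      have e2 := Nat.div_add_mod (m - (H + 1)) (WW (yy x))
      have e3 : (n - (H + 1)) % WW (yy x) = (m - (H + 1)) % WW (yy x) := by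
        have e4 : n ≡ m [MOD WW (yy x)] := by
          show n % WW (yy x) = m % WW (yy x)
          rw [hn'.2, hm'.2]
        have e5 : (n - (H + 1)) + (H + 1) ≡ (m - (H + 1)) + (H + 1) [MOD WW (yy x)] := by
          rw [Nat.sub_add_cancel hn'.1.1, Nat.sub_add_cancel hm'.1.1]
          exact e4
        exact Nat.ModEq.add_right_cancel' _ e5
      have e6 : n - (H + 1) = m - (H + 1) := by
        rw [← e1, ← e2, h, e3]
      omega
  calc ((JC x H t).card : ℝ) ≤ (((⌊x⌋₊ + 1) / WW (yy x) + 1 : ℕ) : ℝ) := by exact_mod_cast h1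
    _ ≤ ((⌊x⌋₊ : ℝ) + 1) / (WW (yy x) : ℝ) + 1 := by
        push_cast
        have := @Nat.cast_div_le ℝ _ _ _ (⌊x⌋₊ + 1) (WW (yy x))
        push_cast at this
        linarith

lemma LOW_e (j : ℕ) (ε : ℝ) (hε : 0 < ε) : ∃ e K : ℝ, 0 < e ∧ e ≤ 1 ∧ 1 ≤ K ∧
    (1 - ε) * (1 + e) ^ j ≤ (1 - e) ^ (j + 1) - 2 * j * (j + 1) / K := by
  have hcont : Filter.Tendsto (fun e : ℝ => (1 - e) ^ (j + 1) - (1 - ε) * (1 + e) ^ j)
      (nhds 0) (nhds ((1 - 0) ^ (j + 1) - (1 - ε) * (1 + 0) ^ j)) := by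
    apply Continuous.tendsto
    fun_prop
  have h0 : (1 - 0 : ℝ) ^ (j + 1) - (1 - ε) * (1 + 0) ^ j = ε := by
    norm_num
  rw [h0] at hcont
  have h1 := hcont.eventually (lt_mem_nhds (half_lt_self hε))
  obtain ⟨δ, hδ, h2⟩ := Metric.eventually_nhds_iff.1 h1
  obtain ⟨e, he⟩ : ∃ e : ℝ, e = min (δ / 2) 1 := ⟨_, rfl⟩
  have h3 : 0 < e := by
    rw [he]
    exact lt_min (by positivity) (by norm_num)
  have h4 : dist e 0 < δ := by
    rw [Real.dist_eq, sub_zero, abs_of_pos h3, he]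
    exact lt_of_le_of_lt (min_le_left _ _) (by linarith)
  have h5 := h2 h4
  refine ⟨e, max 1 (4 * j * (j + 1) / ε), h3, by rw [he]; exact min_le_right _ _, le_max_left _ _, ?_⟩
  have h6 : 2 * (j : ℝ) * (j + 1) / max 1 (4 * j * (j + 1) / ε) ≤ ε / 2 := by
    have h7 : (0 : ℝ) < max 1 (4 * j * (j + 1) / ε) := lt_of_lt_of_le one_pos (le_max_left _ _)
    rw [div_le_iff₀ h7]
    have h8 : 4 * (j : ℝ) * (j + 1) / ε ≤ max 1 (4 * j * (j + 1) / ε) := le_max_right _ _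
    rw [div_le_iff₀ hε] at h8
    linarith
  linarith

theorem LOW (j : ℕ) (ε : ℝ) (hε : 0 < ε) : ∃ K X : ℝ, 1 ≤ K ∧ ∀ x : ℝ, X ≤ x → ∀ H : ℕ, (H : ℝ) ≤ (Real.log x) ^ 2 →
    ∀ A : Finset ℤ, A ⊆ Finset.Icc 1 (H : ℤ) → K * Real.log x ≤ (A.card : ℝ) →
    (1 - ε) * (((⌊x⌋₊ : ℝ) + 1) * ∑ C ∈ Finset.powersetCard (j + 1) A, sW x C) ≤
      ∑ C ∈ Finset.powersetCard (j + 1) A, ∑ n ∈ JJ x H, ∏ c ∈ C, La x ((n : ℤ) - c) := by
  classical
  obtain ⟨e, K, he0, he1, hK, heK⟩ := LOW_e j ε hε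
  obtain ⟨X1, hX1⟩ := APP e he0
  refine ⟨K, max X1 (max (Real.exp 1) ((1 / e) ^ 2)), hK, fun x hx H hH A hA hAc => ?_⟩
  simp only [max_le_iff] at hx
  obtain ⟨hx1, hxe, hxe2⟩ := hx
  have hx0 : 0 < x := (Real.exp_pos 1).trans_le hxe
  have hxge1 : 1 ≤ x := (Real.one_le_exp zero_le_one).trans hxe
  have hL : 1 ≤ Real.log x := (Real.le_log_iff_exp_le hx0).2 hxe
  have hf : (0 : ℝ) < ((j + 1).factorial : ℝ) := by exact_mod_cast Nat.factorial_pos _
  obtain ⟨L, hLd⟩ : ∃ L, L = Real.log x := ⟨_, rfl⟩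
  obtain ⟨N, hN⟩ : ∃ N : ℝ, N = (⌊x⌋₊ : ℝ) + 1 := ⟨_, rfl⟩
  have hN0 : 0 < N := by
    rw [hN]
    positivity
  obtain ⟨W, hW⟩ : ∃ W : ℕ, W = WW (yy x) := ⟨_, rfl⟩
  have hWpos : 0 < W := by
    rw [hW]
    exact WW_pos _
  have hWR : (0 : ℝ) < W := by exact_mod_cast hWpos
  -- `W ≤ e N`
  have hWN : (W : ℝ) ≤ e * N := by
    have h34 : (W : ℝ) ^ 34 ≤ Real.sqrt (Real.log x) := by
      rw [hW]
      exact WW_yy_pow_le hL
    have h1 : (1 : ℝ) ≤ W := by exact_mod_cast hWpos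
    have h2 : (W : ℝ) ≤ (W : ℝ) ^ 34 := le_self_pow₀ h1 (by norm_num)
    have h3 : Real.sqrt (Real.log x) ≤ Real.sqrt x := Real.sqrt_le_sqrt (Real.log_le_self hx0.le)
    have h4 : 1 / e ≤ Real.sqrt x := by
      rw [Real.le_sqrt (by positivity) hx0.le]
      exact hxe2
    have h5 : 1 ≤ e * Real.sqrt x := by
      rw [div_le_iff₀ he0] at h4
      linarith
    have h6 : Real.sqrt x * Real.sqrt x = x := Real.mul_self_sqrt hx0.le
    have h7 : x ≤ N := by
      rw [hN]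
      exact (Nat.lt_floor_add_one x).le
    have h8 : 0 ≤ Real.sqrt x := Real.sqrt_nonneg x
    calc (W : ℝ) ≤ Real.sqrt x := h2.trans (h34.trans h3)
      _ ≤ (e * Real.sqrt x) * Real.sqrt x := le_mul_of_one_le_left h8 h5
      _ = e * x := by rw [mul_assoc, h6]
      _ ≤ e * N := mul_le_mul_of_nonneg_left h7 he0.le
  have hApos : 0 < (A.card : ℝ) := by
    have : 0 < K * Real.log x := by positivity
    linarith
  -- the classes
  have hcls : ∀ t ∈ Finset.range W, N / W * ((1 - e) ^ (j + 1) * BA (yy x) A t ^ (j + 1) -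
      2 * j * (j + 1) * L * BA (yy x) A t ^ j) ≤ (1 + e) ^ j *
      ∑ n ∈ JC x H t, (max 0 (∑ a ∈ A, La x ((n : ℤ) - a) - j * L)) ^ (j + 1) := by
    intro t ht
    rw [Finset.mem_range] at ht
    obtain ⟨B, hB⟩ : ∃ B, B = BA (yy x) A (t : ℤ) := ⟨_, rfl⟩
    have hB0 : 0 ≤ B := by
      rw [hB]
      exact BA_nonneg _ _ _
    rw [← hB]
    have hcard : ((JC x H t).card : ℝ) ≤ (1 + e) * (N / W) := by
      have h1 := LOW_card x H t
      rw [← hN, ← hW] at h1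
      have h2 : 1 ≤ e * (N / W) := by
        rw [← mul_div_assoc, le_div_iff₀ hWR]
        linarith
      linarith
    have hsum : (1 - e) * (N / W * B) ≤ ∑ n ∈ JC x H t, ∑ a ∈ A, La x ((n : ℤ) - a) := by
      rw [Finset.sum_comm, hB]
      unfold BA
      rw [Finset.mul_sum, Finset.mul_sum]
      refine Finset.sum_le_sum fun a ha => ?_
      have h1 := (abs_le.1 (hX1 x hx1 H hH t (by rw [← hW]; exact ht) a (hA ha))).1
      rw [← hN, ← hW] at h1
      linarith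
    have hF0 : ∀ n ∈ JC x H t, 0 ≤ max 0 (∑ a ∈ A, La x ((n : ℤ) - a) - j * L) := fun n _ => le_max_left _ _
    have hFs : N / W * max 0 ((1 - e) * B - 2 * j * L) ≤
        ∑ n ∈ JC x H t, max 0 (∑ a ∈ A, La x ((n : ℤ) - a) - j * L) := by
      rcases le_total 0 ((1 - e) * B - 2 * j * L) with h3 | h3
      · rw [max_eq_right h3]
        refine le_trans ?_ (Finset.sum_le_sum fun n _ => le_max_right 0 (∑ a ∈ A, La x ((n : ℤ) - a) - j * L))
        rw [Finset.sum_sub_distrib, Finset.sum_const, nsmul_eq_mul]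
        have h4 : ((JC x H t).card : ℝ) * (j * L) ≤ (1 + e) * (N / W) * (j * L) :=
          mul_le_mul_of_nonneg_right hcard (by rw [hLd]; positivity)
        have h5 : (1 + e) * (N / W) * (j * L) ≤ 2 * (N / W) * (j * L) := by
          refine mul_le_mul_of_nonneg_right (mul_le_mul_of_nonneg_right (by linarith) (by positivity)) ?_
          rw [hLd]
          positivity
        have h6 : N / W * ((1 - e) * B - 2 * j * L) = (1 - e) * (N / W * B) - 2 * (N / W) * (j * L) := by ring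
        rw [h6]
        linarith
      · rw [max_eq_left h3, mul_zero]
        exact Finset.sum_nonneg hF0
    have hpow := pow_sum_le_card_mul_sum_pow hF0 j
    have hNW : 0 < N / W := by positivity
    have h7 : (N / W * max 0 ((1 - e) * B - 2 * j * L)) ^ (j + 1) ≤
        ((1 + e) * (N / W)) ^ j * ∑ n ∈ JC x H t, (max 0 (∑ a ∈ A, La x ((n : ℤ) - a) - j * L)) ^ (j + 1) := by
      refine (pow_le_pow_left₀ (mul_nonneg hNW.le (le_max_left _ _)) hFs _).trans (hpow.trans ?_)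
      exact mul_le_mul_of_nonneg_right (pow_le_pow_left₀ (Nat.cast_nonneg _) hcard j)
        (Finset.sum_nonneg fun n _ => pow_nonneg (le_max_left _ _) _)
    have h8 : N / W * (max 0 ((1 - e) * B - 2 * j * L)) ^ (j + 1) ≤
        (1 + e) ^ j * ∑ n ∈ JC x H t, (max 0 (∑ a ∈ A, La x ((n : ℤ) - a) - j * L)) ^ (j + 1) := by
      have h9 : (0 : ℝ) < (N / W) ^ j := by positivity
      refine le_of_mul_le_mul_left ?_ h9
      calc (N / W) ^ j * (N / W * (max 0 ((1 - e) * B - 2 * j * L)) ^ (j + 1)) =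
          (N / W * max 0 ((1 - e) * B - 2 * j * L)) ^ (j + 1) := by
            rw [mul_pow]
            ring
        _ ≤ _ := h7
        _ = _ := by
            rw [mul_pow]
            ring
    refine le_trans (mul_le_mul_of_nonneg_left ?_ hNW.le) h8
    have h10 := LOW_bern j (show 0 ≤ (1 - e) * B from mul_nonneg (by linarith) hB0)
      (show (0 : ℝ) ≤ 2 * j * L by rw [hLd]; positivity)
    refine le_trans ?_ h10
    rw [mul_pow, mul_pow]
    have h11 : (1 - e) ^ j ≤ 1 := pow_le_one₀ (by linarith) (by linarith)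
    have h12 : (0 : ℝ) ≤ ((j : ℝ) + 1) * (2 * j * L) := by
      rw [hLd]
      positivity
    have h13 : ((j : ℝ) + 1) * (2 * j * L) * ((1 - e) ^ j * B ^ j) ≤ ((j : ℝ) + 1) * (2 * j * L) * (1 * B ^ j) :=
      mul_le_mul_of_nonneg_left (mul_le_mul_of_nonneg_right h11 (by positivity)) h12
    have h14 : ((j : ℝ) + 1) * (2 * j * L) * (1 * B ^ j) = 2 * j * (j + 1) * L * B ^ j := by ring
    linarith
  have hsumc := Finset.sum_le_sum hcls
  rw [← Finset.mul_sum, ← Finset.mul_sum, Finset.sum_sub_distrib, ← Finset.mul_sum, ← Finset.mul_sum] at hsumc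
  have hBB : ∀ i : ℕ, ∑ t ∈ Finset.range W, BA (yy x) A (t : ℤ) ^ i = W * BB (yy x) A i := by
    intro i
    unfold BB avgP
    rw [← hW]
    field_simp
  rw [hBB, hBB] at hsumc
  have hfib : ∑ t ∈ Finset.range W, ∑ n ∈ JC x H t, (max 0 (∑ a ∈ A, La x ((n : ℤ) - a) - j * L)) ^ (j + 1) =
      ∑ n ∈ JJ x H, (max 0 (∑ a ∈ A, La x ((n : ℤ) - a) - j * L)) ^ (j + 1) := by
    unfold JC
    rw [← hW]
    exact Finset.sum_fiberwise_of_maps_to (s := JJ x H) (t := Finset.range W) (g := fun n => n % W)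
      (fun n _ => Finset.mem_range.mpr (Nat.mod_lt n hWpos)) _
  rw [hfib] at hsumc
  -- the pointwise bound
  have hpt : ∑ n ∈ JJ x H, (max 0 (∑ a ∈ A, La x ((n : ℤ) - a) - j * L)) ^ (j + 1) ≤
      ((j + 1).factorial : ℝ) * ∑ C ∈ Finset.powersetCard (j + 1) A, ∑ n ∈ JJ x H, ∏ c ∈ C, La x ((n : ℤ) - c) := by
    rw [Finset.sum_comm, Finset.mul_sum]
    refine Finset.sum_le_sum fun n _ => ?_
    have h1 := LOW_pt A (fun a => isP ((n : ℤ) - a) ∧ x ^ (1 / 4 : ℝ) < (((n : ℤ) - a : ℤ) : ℝ) ∧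
      (((n : ℤ) - a : ℤ) : ℝ) ≤ x) (L := L) (by rw [hLd]; linarith) j
    rw [hLd] at h1 ⊢
    exact h1
  obtain ⟨S, hS⟩ : ∃ S, S = ∑ C ∈ Finset.powersetCard (j + 1) A, ∑ n ∈ JJ x H, ∏ c ∈ C, La x ((n : ℤ) - c) := ⟨_, rfl⟩
  obtain ⟨Z, hZ⟩ : ∃ Z, Z = ∑ C ∈ Finset.powersetCard (j + 1) A, sW x C := ⟨_, rfl⟩
  rw [← hS] at hpt ⊢
  rw [← hZ, ← hN]
  have hS0 : 0 ≤ S := by
    rw [hS]
    exact Finset.sum_nonneg fun C _ => Finset.sum_nonneg fun n _ => Finset.prod_nonneg fun c _ => La_nonneg hxge1 _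
  have hZ0 : 0 ≤ Z := by
    rw [hZ]
    exact Finset.sum_nonneg fun C _ => by
      rw [sW_eq_Sy]
      exact Sy_nonneg _ _
  rcases le_or_gt (1 - ε) 0 with hneg | hpos
  · exact (mul_nonpos_of_nonpos_of_nonneg hneg (by positivity)).trans hS0
  have hlo := MOM_lo (yy x) A (j + 1)
  have hZlo : ((j + 1).factorial : ℝ) * Z ≤ BB (yy x) A (j + 1) := by
    rw [hZ]
    exact hlo
  have hch := MOM_cheb (yy x) A j
  have hBB1 := BB_nonneg (yy x) A (j + 1)
  obtain ⟨b1, hb1⟩ : ∃ b1, b1 = BB (yy x) A (j + 1) := ⟨_, rfl⟩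
  obtain ⟨b0, hb0⟩ : ∃ b0, b0 = BB (yy x) A j := ⟨_, rfl⟩
  rw [← hb1] at hsumc hZlo hch hBB1
  rw [← hb0] at hsumc hch
  have h1 : N * ((1 - e) ^ (j + 1) * b1 - 2 * j * (j + 1) * L * b0) ≤ (1 + e) ^ j * (((j + 1).factorial : ℝ) * S) := by
    have h2 : N * ((1 - e) ^ (j + 1) * b1 - 2 * j * (j + 1) * L * b0) =
        N / W * ((1 - e) ^ (j + 1) * (W * b1) - 2 * j * (j + 1) * L * (W * b0)) := by
      field_simp
    rw [h2]
    exact hsumc.trans (mul_le_mul_of_nonneg_left hpt (by positivity))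
  have h2 : 2 * j * (j + 1) * L * b0 ≤ 2 * j * (j + 1) / K * b1 := by
    have hK0 : 0 < K := by linarith
    have h3 : K * L * b0 ≤ b1 := by
      rw [← hLd] at hAc
      have hb00 : 0 ≤ b0 := by
        rw [hb0]
        exact BB_nonneg _ _ _
      have := mul_le_mul_of_nonneg_right hAc hb00
      linarith
    have h4 : L * b0 ≤ b1 / K := by
      rw [le_div_iff₀ hK0]
      linarith
    calc 2 * (j : ℝ) * (j + 1) * L * b0 = 2 * j * (j + 1) * (L * b0) := by ring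
      _ ≤ 2 * j * (j + 1) * (b1 / K) := mul_le_mul_of_nonneg_left h4 (by positivity)
      _ = _ := by ring
  have h3 : (1 - ε) * (1 + e) ^ j * b1 ≤ ((1 - e) ^ (j + 1) - 2 * j * (j + 1) / K) * b1 :=
    mul_le_mul_of_nonneg_right heK hBB1
  have h4 : N * ((1 - ε) * (1 + e) ^ j * b1) ≤ (1 + e) ^ j * (((j + 1).factorial : ℝ) * S) := by
    refine le_trans (mul_le_mul_of_nonneg_left ?_ hN0.le) h1
    have h5 : ((1 - e) ^ (j + 1) - 2 * j * (j + 1) / K) * b1 = (1 - e) ^ (j + 1) * b1 - 2 * j * (j + 1) / K * b1 := by ring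
    linarith
  have h5 : (1 - ε) * (N * b1) ≤ ((j + 1).factorial : ℝ) * S := by
    have h6 : (0 : ℝ) < (1 + e) ^ j := by positivity
    refine le_of_mul_le_mul_left ?_ h6
    linarith [show (1 + e) ^ j * ((1 - ε) * (N * b1)) = N * ((1 - ε) * (1 + e) ^ j * b1) by ring]
  refine le_of_mul_le_mul_left ?_ hf
  calc ((j + 1).factorial : ℝ) * ((1 - ε) * (N * Z)) = (1 - ε) * (N * (((j + 1).factorial : ℝ) * Z)) := by ring
    _ ≤ (1 - ε) * (N * b1) := mul_le_mul_of_nonneg_left (mul_le_mul_of_nonneg_left hZlo hN0.le) hpos.le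
    _ ≤ _ := h5

end Pool.Agent.H6.AS
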