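import Pool.Agent.H6.AE.T1
import Pool.Agent.H6.AS.FIN

/-!
# T1v: almost all prime tuples, with arbitrary sets of shifts (final form, see `Pool/Agent/Results/MP_1039f5_nt/AlmostAllTuples.lean`)
-/

set_option autoImplicit false

namespace Pool.Agent.H6.AS

open Finset Pool.Agent.H17 Pool.Agent.H6.MF Pool.Agent.H6.MB Pool.Agent.H12.DM Pool.Agent.H6.AE

theorem T1v : ∀ k : ℕ, 1 ≤ k → ∀ ε : ℝ, 0 < ε → ∃ (y : ℕ) (K X : ℝ), ∀ x : ℝ, X ≤ x →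
    (∀ A : Finset ℤ, (∀ a ∈ A, 1 ≤ a ∧ (a : ℝ) ≤ (Real.log x) ^ 2) → K * Real.log x ≤ (A.card : ℝ) →
      ∑ E ∈ powersetCard (k + 1) A, max 0 ((Real.log x) ^ (k + 1) * (cnt x E : ℝ) / x - 4 ^ k * sing E) ≤
        ε * ∑ E ∈ powersetCard (k + 1) A, sing E ∧
      ∀ h : ℝ, 0 ≤ h → h ≤ 1 →
        (h - ε) * ∑ E ∈ powersetCard (k + 1) A, sing E ≤ (4 ^ k - (1 - h)) *
          ∑ E ∈ (powersetCard (k + 1) A).filter (fun E =>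
            (1 - h) * (sing E * x / (Real.log x) ^ (k + 1)) ≤ (cnt x E : ℝ)), sing E) ∧
    ∀ Q : Finset ℕ, (∀ p ∈ Q, p.Prime ∧ (p : ℝ) ≤ x) → ∀ r : ℝ, r = (Q.card : ℝ) * Real.log x / x →
      (∃ g : ℤ → ℝ, (∀ n, 0 ≤ g n ∧ g n ≤ 4 + ε) ∧
        ∀ H : ℕ, K * Real.log x ≤ (H : ℝ) → (H : ℝ) ≤ (Real.log x) ^ 2 → ∀ j : ℕ, 1 ≤ j → j ≤ k →
          ∑ D ∈ powersetCard j (Icc 1 (H : ℤ)), |(Real.log x) ^ (j + 1) * (cntQ x Q (insert 0 D) : ℝ) / x -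
            (∑ n ∈ range (⌊x⌋₊ + 1), ∏ d ∈ insert 0 D, (Mm y ((n : ℤ) - d) * g ((n : ℤ) - d))) / x| ≤ ε * (H : ℝ) ^ j) ∧
      ∀ H : ℕ, K * Real.log x ≤ (H : ℝ) → (H : ℝ) ≤ (Real.log x) ^ 2 → ∀ h : ℝ, 0 ≤ h → h ≤ 1 →
        (h * r ^ (k + 1) - ε) * ((H : ℝ) ^ (k + 1) / ((k + 1).factorial : ℝ)) ≤ (4 ^ k - (1 - h) * r ^ (k + 1)) *
          ∑ E ∈ (powersetCard (k + 1) (Icc 1 (H : ℤ))).filter (fun E =>
            (1 - h) * r ^ (k + 1) * (sing E * x / (Real.log x) ^ (k + 1)) ≤ (cntQ x Q E : ℝ)), sing E := by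
  intro k hk ε hε
  obtain ⟨y, K1, X1, h1⟩ := T1 k hk ε hε
  obtain ⟨K2, X2, hK2, h2⟩ := FIN k hk ε hε
  refine ⟨y, max K1 K2, max (max X1 X2) (Real.exp 1), fun x hx => ?_⟩
  simp only [max_le_iff] at hx
  obtain ⟨⟨hx1, hx2⟩, hxe⟩ := hx
  have hx0 : 0 < x := (Real.exp_pos 1).trans_le hxe
  have hL : 1 ≤ Real.log x := (Real.le_log_iff_exp_le hx0).2 hxe
  have hK : ∀ a : ℝ, max K1 K2 * Real.log x ≤ a → K1 * Real.log x ≤ a ∧ K2 * Real.log x ≤ a := by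
    intro a ha
    exact ⟨(mul_le_mul_of_nonneg_right (le_max_left _ _) (by linarith)).trans ha,
      (mul_le_mul_of_nonneg_right (le_max_right _ _) (by linarith)).trans ha⟩
  refine ⟨fun A hA hKA => ?_, fun Q hQ r hr => ?_⟩
  · refine h2 x hx2 ⌊(Real.log x) ^ 2⌋₊ (Nat.floor_le (by positivity)) A (fun a ha => ?_) (hK _ hKA).2
    obtain ⟨h3, h4⟩ := hA a ha
    rw [Finset.mem_Icc]
    refine ⟨h3, ?_⟩
    have h5 : ((a.toNat : ℕ) : ℝ) ≤ (Real.log x) ^ 2 := by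
      have h6 : ((a.toNat : ℕ) : ℤ) = a := Int.toNat_of_nonneg (by omega)
      have h7 : ((a.toNat : ℕ) : ℝ) = (a : ℝ) := by exact_mod_cast congrArg (Int.cast : ℤ → ℝ) h6
      rw [h7]
      exact h4
    have h8 := Nat.le_floor h5
    omega
  · obtain ⟨h3, h4⟩ := h1 x hx1 Q hQ r hr
    obtain ⟨g, hg, hg2⟩ := h3
    exact ⟨⟨g, hg, fun H hH1 hH2 => hg2 H (hK _ hH1).1 hH2⟩, fun H hH1 hH2 => (h4 H (hK _ hH1).1 hH2).2⟩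

end Pool.Agent.H6.AS
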